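import Mathlib

namespace Pool.Agent.LinesCross

open Finset

set_option linter.unusedSectionVars false

section comb

variable {C : Type*} [DecidableEq C]

/-- total weight of the ordered pairs in `X × Y` -/
def W (A : C → C → ℕ) (X Y : Finset C) : ℕ := ∑ c ∈ X, ∑ d ∈ Y, A c d

/-- total weight of the ordered pairs `(c, d) ∈ X × Y` with `c` above and `d` not above the cut -/
def Cr (A : C → C → ℕ) (f : C → Bool) (X Y : Finset C) : ℕ :=
  ∑ c ∈ X, ∑ d ∈ Y, if f c = true ∧ f d = false then A c d else 0

/-- rotational peeling -/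
def Peel (a b : ℕ) : List (C → Bool) → Finset C → Finset C → Prop
  | [], L, R => L.card = a ∧ R.card = b
  | f :: fs, L, R => (L.filter (fun c => f c = true)).card = a ∧
      (R.filter (fun c => f c = false)).card = b ∧
      Peel a b fs (L.filter (fun c => f c = false)) (R.filter (fun c => f c = true))

theorem sum_map_comm {D : Type*} (fs : List D) (g : D → C → ℕ) (X : Finset C) :
    ∑ c ∈ X, (fs.map (fun f => g f c)).sum = (fs.map (fun f => ∑ c ∈ X, g f c)).sum := by
  induction fs with
  | nil => simp
  | cons f fs ih => simp [Finset.sum_add_distrib, ih]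

theorem cntL {a b : ℕ} (fs : List (C → Bool)) : ∀ (L R : Finset C), Peel a b fs L R → ∀ c : C,
    (L.filter (fun d => ∀ f ∈ fs, f d = f c)).card ≤ a := by
  induction fs with
  | nil => intro L R h c; simp; exact h.1.le
  | cons f fs ih =>
    intro L R h c
    obtain ⟨h1, h2, h3⟩ := h
    by_cases hc : f c = true
    · rw [← h1]
      apply Finset.card_le_card
      intro d hd
      rw [Finset.mem_filter] at hd ⊢
      exact ⟨hd.1, by rw [hd.2 f (List.mem_cons_self ..), hc]⟩
    · refine (Finset.card_le_card ?_).trans (ih _ _ h3 c)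
      intro d hd
      rw [Finset.mem_filter] at hd ⊢
      rw [Finset.mem_filter]
      refine ⟨⟨hd.1, ?_⟩, fun g hg => hd.2 g (List.mem_cons_of_mem _ hg)⟩
      rw [hd.2 f (List.mem_cons_self ..)]
      simpa using hc

theorem cntR {a b : ℕ} (fs : List (C → Bool)) : ∀ (L R : Finset C), Peel a b fs L R → ∀ c : C,
    (R.filter (fun d => ∀ f ∈ fs, f d = f c)).card ≤ b := by
  induction fs with
  | nil => intro L R h c; simp; exact h.2.le
  | cons f fs ih =>
    intro L R h c
    obtain ⟨h1, h2, h3⟩ := h
    by_cases hc : f c = false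
    · rw [← h2]
      apply Finset.card_le_card
      intro d hd
      rw [Finset.mem_filter] at hd ⊢
      exact ⟨hd.1, by rw [hd.2 f (List.mem_cons_self ..), hc]⟩
    · refine (Finset.card_le_card ?_).trans (ih _ _ h3 c)
      intro d hd
      rw [Finset.mem_filter] at hd ⊢
      rw [Finset.mem_filter]
      refine ⟨⟨hd.1, ?_⟩, fun g hg => hd.2 g (List.mem_cons_of_mem _ hg)⟩
      rw [hd.2 f (List.mem_cons_self ..)]
      simpa using hc

variable (A : C → C → ℕ)

theorem W_le_sum (hsym : ∀ c d, A c d = A d c) (h1 : ∀ c d, A c d ≤ 1)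
    (fs : List (C → Bool)) (X Y : Finset C) :
    W A X Y ≤ (fs.map (fun f => Cr A f X Y + Cr A f Y X)).sum +
      ∑ c ∈ X, (Y.filter (fun d => ∀ f ∈ fs, f d = f c)).card := by
  have hpt : ∀ c d, A c d ≤ (fs.map (fun f => (if f c = true ∧ f d = false then A c d else 0) +
      (if f d = true ∧ f c = false then A d c else 0))).sum +
      (if ∀ f ∈ fs, f d = f c then 1 else 0) := by
    intro c d
    by_cases h : ∀ f ∈ fs, f d = f c
    · rw [if_pos h]; exact (h1 c d).trans (Nat.le_add_left _ _)
    · rw [if_neg h]
      push Not at h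
      obtain ⟨f, hf, hne⟩ := h
      rw [add_zero]
      refine le_trans ?_ (List.single_le_sum (by intro x _; exact Nat.zero_le x) _
        (List.mem_map.2 ⟨f, hf, rfl⟩))
      cases hc : f c <;> cases hd : f d <;> simp_all
  have e1 : ∀ f : C → Bool, Cr A f X Y + Cr A f Y X = ∑ c ∈ X, ∑ d ∈ Y,
      ((if f c = true ∧ f d = false then A c d else 0) +
      (if f d = true ∧ f c = false then A d c else 0)) := by
    intro f
    unfold Cr
    rw [Finset.sum_comm (s := Y) (t := X)]
    simp only [Finset.sum_add_distrib]
  unfold W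
  calc ∑ c ∈ X, ∑ d ∈ Y, A c d ≤ ∑ c ∈ X, ∑ d ∈ Y, ((fs.map (fun f =>
        (if f c = true ∧ f d = false then A c d else 0) +
        (if f d = true ∧ f c = false then A d c else 0))).sum +
        (if ∀ f ∈ fs, f d = f c then 1 else 0)) := by
        apply Finset.sum_le_sum; intro c _; apply Finset.sum_le_sum; intro d _; exact hpt c d
    _ = _ := by
        simp only [Finset.sum_add_distrib (s := Y), Finset.sum_add_distrib (s := X)]
        congr 1
        · simp only [e1]
          rw [← sum_map_comm fs (fun f c => ∑ d ∈ Y,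
            ((if f c = true ∧ f d = false then A c d else 0) +
            (if f d = true ∧ f c = false then A d c else 0)))]
          apply Finset.sum_congr rfl
          intro c _
          rw [← sum_map_comm fs (fun f d =>
            ((if f c = true ∧ f d = false then A c d else 0) +
            (if f d = true ∧ f c = false then A d c else 0)))]
        · simp only [Finset.card_filter]

theorem W_self_le (h0 : ∀ c, A c c = 0) (h1 : ∀ c d, A c d ≤ 1) (X : Finset C) :
    W A X X + X.card ≤ X.card * X.card := by
  unfold W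
  have : ∑ c ∈ X, (∑ d ∈ X, A c d + 1) ≤ ∑ c ∈ X, X.card := by
    apply Finset.sum_le_sum
    intro c hc
    rw [← Finset.add_sum_erase X _ hc, h0, zero_add, ← Finset.card_erase_add_one hc]
    apply Nat.add_le_add_right
    calc ∑ d ∈ X.erase c, A c d ≤ ∑ d ∈ X.erase c, 1 := Finset.sum_le_sum (fun d _ => h1 c d)
      _ = _ := by simp
  rw [Finset.sum_add_distrib] at this
  simpa using this

theorem W_union_left (X Y Z : Finset C) (h : Disjoint X Y) :
    W A (X ∪ Y) Z = W A X Z + W A Y Z := by
  unfold W; rw [Finset.sum_union h]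

theorem W_union_right (X Y Z : Finset C) (h : Disjoint X Y) :
    W A Z (X ∪ Y) = W A Z X + W A Z Y := by
  unfold W; rw [← Finset.sum_add_distrib]; apply Finset.sum_congr rfl; intro c _
  rw [Finset.sum_union h]

theorem Cr_union_left (f : C → Bool) (X Y Z : Finset C) (h : Disjoint X Y) :
    Cr A f (X ∪ Y) Z = Cr A f X Z + Cr A f Y Z := by
  unfold Cr; rw [Finset.sum_union h]

theorem Cr_union_right (f : C → Bool) (X Y Z : Finset C) (h : Disjoint X Y) :
    Cr A f Z (X ∪ Y) = Cr A f Z X + Cr A f Z Y := by
  unfold Cr; rw [← Finset.sum_add_distrib]; apply Finset.sum_congr rfl; intro c _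
  rw [Finset.sum_union h]

theorem W_comm (hsym : ∀ c d, A c d = A d c) (X Y : Finset C) : W A X Y = W A Y X := by
  unfold W; rw [Finset.sum_comm]; simp only [hsym]

theorem Cr_eq (f : C → Bool) (X Y : Finset C) :
    Cr A f X Y = W A (X.filter (fun c => f c = true)) (Y.filter (fun c => f c = false)) := by
  unfold Cr W
  rw [Finset.sum_filter]
  apply Finset.sum_congr rfl
  intro c _
  split_ifs with h
  · rw [Finset.sum_filter]
    apply Finset.sum_congr rfl; intro d _
    simp [h]
  · apply Finset.sum_eq_zero; intro d _; simp [h]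

theorem filter_union_bool (f : C → Bool) (X : Finset C) :
    (X.filter (fun c => f c = true)) ∪ (X.filter (fun c => f c = false)) = X := by
  ext c; simp only [Finset.mem_union, Finset.mem_filter]
  cases f c <;> simp

theorem filter_disj_bool (f : C → Bool) (X : Finset C) :
    Disjoint (X.filter (fun c => f c = true)) (X.filter (fun c => f c = false)) := by
  rw [Finset.disjoint_left]; intro c h h'
  rw [Finset.mem_filter] at h h'; rw [h.2] at h'; exact absurd h'.2 (by simp)

theorem list_sum_le {D : Type*} (fs : List D) (g h : D → ℕ) (hgh : ∀ f ∈ fs, g f ≤ h f) :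
    (fs.map g).sum ≤ (fs.map h).sum := by
  induction fs with
  | nil => simp
  | cons f fs ih =>
    simp only [List.map_cons, List.sum_cons]
    have := hgh f (List.mem_cons_self ..)
    have := ih (fun g hg => hgh g (List.mem_cons_of_mem _ hg))
    omega

theorem list_sum_add {D : Type*} (fs : List D) (g h : D → ℕ) :
    (fs.map (fun f => g f + h f)).sum = (fs.map g).sum + (fs.map h).sum := by
  induction fs with
  | nil => simp
  | cons f fs ih =>
    simp only [List.map_cons, List.sum_cons, ih]; omega

/-- one side of a general peeling: `A₁` is split off first, `L₂` is the rest -/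
theorem side_step (hsym : ∀ c d, A c d = A d c) (h0 : ∀ c, A c c = 0) (h1 : ∀ c d, A c d ≤ 1)
    (a : ℕ) (n : ℕ) (fs : List (C → Bool)) (A₁ L₂ L : Finset C) (hL : L = A₁ ∪ L₂)
    (hd : Disjoint A₁ L₂) (hA : A₁.card = a)
    (hcnt : ∀ c, (L₂.filter (fun d => ∀ f ∈ fs, f d = f c)).card ≤ a)
    (ih : W A L₂ L₂ + (n + 1) * a ≤ (fs.map (fun f => Cr A f L₂ L₂)).sum + (2 * n + 1) * (a * a)) :
    W A L L + (n + 2) * a ≤ W A A₁ L₂ + (fs.map (fun f => Cr A f L L)).sum +
      (2 * (n + 1) + 1) * (a * a) := by
  subst hL
  have e1 : W A (A₁ ∪ L₂) (A₁ ∪ L₂) = W A A₁ A₁ + W A A₁ L₂ + (W A A₁ L₂ + W A L₂ L₂) := by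
    rw [W_union_left A _ _ _ hd, W_union_right A _ _ _ hd, W_union_right A _ _ _ hd,
      W_comm A hsym L₂ A₁]
  have e2 := W_self_le A h0 h1 A₁
  have e3 := W_le_sum A hsym h1 fs A₁ L₂
  have e4 : ∑ c ∈ A₁, (L₂.filter (fun d => ∀ f ∈ fs, f d = f c)).card ≤ a * a := by
    calc _ ≤ ∑ c ∈ A₁, a := Finset.sum_le_sum (fun c _ => hcnt c)
      _ = a * a := by rw [Finset.sum_const, hA]; simp
  have e5 : (fs.map (fun f => Cr A f L₂ L₂)).sum +
      (fs.map (fun f => Cr A f A₁ L₂ + Cr A f L₂ A₁)).sum ≤
      (fs.map (fun f => Cr A f (A₁ ∪ L₂) (A₁ ∪ L₂))).sum := by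
    rw [← list_sum_add]
    apply list_sum_le
    intro f _
    rw [Cr_union_left A f _ _ _ hd, Cr_union_right A f _ _ _ hd, Cr_union_right A f _ _ _ hd]
    omega
  rw [hA] at e2
  rw [e1]
  nlinarith

theorem sideL (hsym : ∀ c d, A c d = A d c) (h0 : ∀ c, A c c = 0) (h1 : ∀ c d, A c d ≤ 1)
    (a b : ℕ) (fs : List (C → Bool)) : ∀ (L R : Finset C), Peel a b fs L R →
    W A L L + (fs.length + 1) * a ≤ (fs.map (fun f => Cr A f L L)).sum +
      (2 * fs.length + 1) * (a * a) := by
  induction fs with
  | nil =>
    intro L R h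
    have := W_self_le A h0 h1 L
    rw [h.1] at this
    simpa using this
  | cons f fs ih =>
    intro L R h
    obtain ⟨g1, g2, g3⟩ := h
    have h4 := side_step A hsym h0 h1 a fs.length fs (L.filter (fun c => f c = true))
      (L.filter (fun c => f c = false)) L (filter_union_bool f L).symm (filter_disj_bool f L) g1
      (fun c => cntL fs _ _ g3 c) (ih _ _ g3)
    rw [List.map_cons, List.sum_cons, List.length_cons, Cr_eq A f L L]
    linarith

theorem sideR (hsym : ∀ c d, A c d = A d c) (h0 : ∀ c, A c c = 0) (h1 : ∀ c d, A c d ≤ 1)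
    (a b : ℕ) (fs : List (C → Bool)) : ∀ (L R : Finset C), Peel a b fs L R →
    W A R R + (fs.length + 1) * b ≤ (fs.map (fun f => Cr A f R R)).sum +
      (2 * fs.length + 1) * (b * b) := by
  induction fs with
  | nil =>
    intro L R h
    have := W_self_le A h0 h1 R
    rw [h.2] at this
    simpa using this
  | cons f fs ih =>
    intro L R h
    obtain ⟨g1, g2, g3⟩ := h
    have h4 := side_step A hsym h0 h1 b fs.length fs (R.filter (fun c => f c = false))
      (R.filter (fun c => f c = true)) R
      (by rw [Finset.union_comm]; exact (filter_union_bool f R).symm)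
      (filter_disj_bool f R).symm g2
      (fun c => cntR fs _ _ g3 c) (ih _ _ g3)
    rw [List.map_cons, List.sum_cons, List.length_cons, Cr_eq A f R R,
      W_comm A hsym (R.filter (fun c => f c = true))]
    linarith

theorem crossLR (a b : ℕ) (fs : List (C → Bool)) (L R : Finset C) (h : Peel a b fs L R) :
    ∑ c ∈ L, (R.filter (fun d => ∀ f ∈ fs, f d = f c)).card ≤ 2 * (a * b) := by
  cases fs with
  | nil =>
    simp only [List.not_mem_nil, false_implies, implies_true, Finset.filter_true]
    rw [Finset.sum_const, h.1, h.2]; simp only [smul_eq_mul]; omega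
  | cons f fs =>
    obtain ⟨g1, g2, g3⟩ := h
    have e0 : ∑ c ∈ L, (R.filter (fun d => ∀ g ∈ f :: fs, g d = g c)).card =
        ∑ c ∈ L.filter (fun c => f c = true), (R.filter (fun d => ∀ g ∈ f :: fs, g d = g c)).card +
        ∑ c ∈ L.filter (fun c => f c = false), (R.filter (fun d => ∀ g ∈ f :: fs, g d = g c)).card := by
      rw [← Finset.sum_union (filter_disj_bool f L), filter_union_bool]
    have e1 : ∑ c ∈ L.filter (fun c => f c = true),
        (R.filter (fun d => ∀ g ∈ f :: fs, g d = g c)).card ≤ a * b := by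
      calc _ ≤ ∑ c ∈ L.filter (fun c => f c = true), b := by
            apply Finset.sum_le_sum
            intro c hc
            rw [Finset.mem_filter] at hc
            refine (Finset.card_le_card ?_).trans (cntR fs _ _ g3 c)
            intro d hd
            rw [Finset.mem_filter] at hd ⊢
            rw [Finset.mem_filter]
            exact ⟨⟨hd.1, by rw [hd.2 f (List.mem_cons_self ..), hc.2]⟩,
              fun g hg => hd.2 g (List.mem_cons_of_mem _ hg)⟩
        _ = a * b := by rw [Finset.sum_const, g1]; simp
    have e2 : ∑ c ∈ L.filter (fun c => f c = false),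
        (R.filter (fun d => ∀ g ∈ f :: fs, g d = g c)).card ≤ a * b := by
      have e3 : ∑ c ∈ L.filter (fun c => f c = false),
        (R.filter (fun d => ∀ g ∈ f :: fs, g d = g c)).card =
        ∑ d ∈ R, ((L.filter (fun c => f c = false)).filter
          (fun c => ∀ g ∈ f :: fs, g d = g c)).card := by
        simp only [Finset.card_filter]
        rw [Finset.sum_comm]
      rw [e3, ← filter_union_bool f R, Finset.sum_union (filter_disj_bool f R)]
      have e4 : ∑ d ∈ R.filter (fun c => f c = true), ((L.filter (fun c => f c = false)).filter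
          (fun c => ∀ g ∈ f :: fs, g d = g c)).card = 0 := by
        apply Finset.sum_eq_zero
        intro d hd
        rw [Finset.mem_filter] at hd
        rw [Finset.card_eq_zero, Finset.filter_eq_empty_iff]
        intro c hc hcon
        rw [Finset.mem_filter] at hc
        have := hcon f (List.mem_cons_self ..)
        rw [hd.2, hc.2] at this
        exact absurd this (by simp)
      rw [e4, zero_add]
      calc _ ≤ ∑ d ∈ R.filter (fun c => f c = false), a := by
            apply Finset.sum_le_sum
            intro d hd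
            refine (Finset.card_le_card ?_).trans (cntL fs _ _ g3 d)
            intro c hc
            rw [Finset.mem_filter] at hc ⊢
            exact ⟨hc.1, fun g hg => (hc.2 g (List.mem_cons_of_mem _ hg)).symm⟩
        _ = a * b := by rw [Finset.sum_const, g2]; simp [mul_comm]
    rw [e0]; omega

/-- the combinatorial heart -/
theorem peel_bound (hsym : ∀ c d, A c d = A d c) (h0 : ∀ c, A c c = 0) (h1 : ∀ c d, A c d ≤ 1)
    (a b : ℕ) (fs : List (C → Bool)) (L R : Finset C) (hLR : Disjoint L R)
    (h : Peel a b fs L R) :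
    W A (L ∪ R) (L ∪ R) + (fs.length + 1) * (a + b) ≤ W A L R +
      (fs.map (fun f => Cr A f (L ∪ R) (L ∪ R))).sum +
      (2 * fs.length + 1) * (a * a + b * b) + 2 * (a * b) := by
  have e1 := sideL A hsym h0 h1 a b fs L R h
  have e2 := sideR A hsym h0 h1 a b fs L R h
  have e3 := W_le_sum A hsym h1 fs L R
  have e4 := crossLR a b fs L R h
  have e5 : (fs.map (fun f => Cr A f (L ∪ R) (L ∪ R))).sum =
      (fs.map (fun f => Cr A f L L)).sum + (fs.map (fun f => Cr A f R R)).sum +
      (fs.map (fun f => Cr A f L R + Cr A f R L)).sum := by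
    rw [← list_sum_add, ← list_sum_add]
    congr 1
    apply List.map_congr_left
    intro f _
    rw [Cr_union_left A f _ _ _ hLR, Cr_union_right A f _ _ _ hLR, Cr_union_right A f _ _ _ hLR]
    omega
  have e6 : W A (L ∪ R) (L ∪ R) = W A L L + W A R R + (W A L R + W A L R) := by
    rw [W_union_left A _ _ _ hLR, W_union_right A _ _ _ hLR, W_union_right A _ _ _ hLR,
      W_comm A hsym R L]
    omega
  rw [e5, e6]
  nlinarith

end comb

end Pool.Agent.LinesCross
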