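import Mathlib

namespace Pool.Agent.LinesCross

open Finset

/-- weighted bisecting-line lemma -/
theorem exists_pivot {ι : Type*} [DecidableEq ι] (x y : ι → ℝ) (w w' : ι → ℕ) (L R : Finset ι)
    (hL : ∀ p ∈ L, x p < 0) (hR : ∀ p ∈ R, 0 < x p)
    (hgp : ∀ α β : ℝ, ∀ p ∈ L, ∀ q ∈ R, y p = α * x p + β → y q = α * x q + β →
        ∀ r ∈ L ∪ R, y r = α * x r + β → r = p ∨ r = q)
    (a b : ℕ) (ha : 1 ≤ a) (ha' : a ≤ ∑ p ∈ L, w p) (hb : 1 ≤ b) (hb' : b ≤ ∑ p ∈ R, w' p) :
    ∃ α β : ℝ, ∃ p ∈ L, ∃ q ∈ R, y p = α * x p + β ∧ y q = α * x q + β ∧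
      ∑ r ∈ L.filter (fun r => α * x r + β < y r), w r < a ∧
      a ≤ ∑ r ∈ L.filter (fun r => α * x r + β < y r), w r + w p ∧
      ∑ r ∈ R.filter (fun r => α * x r + β < y r), w' r < b ∧
      b ≤ ∑ r ∈ R.filter (fun r => α * x r + β < y r), w' r + w' q := by
  classical
  set σ : ι → ι → ℝ := fun p q => (y q - y p) / (x q - x p) with hσ
  set Good : ℝ → Prop := fun α => ∃ A ⊆ L, ∃ B ⊆ R, a ≤ ∑ p ∈ A, w p ∧
    (∑ p ∈ R, w' p) + 1 ≤ b + ∑ p ∈ B, w' p ∧ ∀ p ∈ A, ∀ q ∈ B, σ p q ≤ α with hGood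
  set S : Finset ℝ := (L ×ˢ R).image (fun pq => σ pq.1 pq.2) with hS
  have key : ∀ A ⊆ L, ∀ B ⊆ R, a ≤ ∑ p ∈ A, w p → (∑ p ∈ R, w' p) + 1 ≤ b + ∑ p ∈ B, w' p →
      ∃ p ∈ A, ∃ q ∈ B, Good (σ p q) ∧ σ p q ∈ S ∧ ∀ p' ∈ A, ∀ q' ∈ B, σ p' q' ≤ σ p q := by
    intro A hA B hB h1 h2
    have hAne : A.Nonempty := by
      rw [Finset.nonempty_iff_ne_empty]; rintro rfl; simp at h1; omega
    have hBne : B.Nonempty := by
      rw [Finset.nonempty_iff_ne_empty]; rintro rfl; simp at h2; omega
    obtain ⟨pq, hpq, hmax⟩ := Finset.exists_max_image (A ×ˢ B) (fun pq => σ pq.1 pq.2)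
      (hAne.product hBne)
    rw [Finset.mem_product] at hpq
    refine ⟨pq.1, hpq.1, pq.2, hpq.2, ⟨A, hA, B, hB, h1, h2, ?_⟩, ?_, ?_⟩
    · intro p hp q hq
      exact hmax (p, q) (Finset.mem_product.2 ⟨hp, hq⟩)
    · exact Finset.mem_image.2 ⟨(pq.1, pq.2), Finset.mem_product.2 ⟨hA hpq.1, hB hpq.2⟩, rfl⟩
    · intro p hp q hq
      exact hmax (p, q) (Finset.mem_product.2 ⟨hp, hq⟩)
  have hne : (S.filter Good).Nonempty := by
    obtain ⟨p, _, q, _, h1, h2, _⟩ := key L (Finset.Subset.refl _) R (Finset.Subset.refl _) ha' (by omega)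
    exact ⟨_, Finset.mem_filter.2 ⟨h2, h1⟩⟩
  obtain ⟨α, hα, hmin⟩ := Finset.exists_min_image (S.filter Good) id hne
  simp only [id] at hmin
  rw [Finset.mem_filter] at hα
  obtain ⟨hαS, A, hA, B, hB, hA1, hB1, hAB⟩ := hα
  have H1 : ∀ A ⊆ L, ∀ B ⊆ R, a ≤ ∑ p ∈ A, w p → (∑ p ∈ R, w' p) + 1 ≤ b + ∑ p ∈ B, w' p →
      ¬ ∀ p ∈ A, ∀ q ∈ B, σ p q < α := by
    intro A hA B hB h1 h2 h3
    obtain ⟨p, hp, q, hq, h4, h5, _⟩ := key A hA B hB h1 h2
    have := hmin _ (Finset.mem_filter.2 ⟨h5, h4⟩)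
    exact absurd (h3 p hp q hq) (not_lt.2 this)
  have hlt : ∀ p ∈ L, ∀ q ∈ R, (σ p q < α ↔ y q - α * x q < y p - α * x p) := by
    intro p hp q hq
    have hpos : 0 < x q - x p := by linarith [hL p hp, hR q hq]
    rw [hσ]; simp only
    rw [div_lt_iff₀ hpos]
    constructor <;> intro h <;> nlinarith
  have hle : ∀ p ∈ L, ∀ q ∈ R, (σ p q ≤ α ↔ y q - α * x q ≤ y p - α * x p) := by
    intro p hp q hq
    have hpos : 0 < x q - x p := by linarith [hL p hp, hR q hq]
    rw [hσ]; simp only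
    rw [div_le_iff₀ hpos]
    constructor <;> intro h <;> nlinarith
  have h0 := H1 A hA B hB hA1 hB1
  push Not at h0
  obtain ⟨p, hp, q, hq, hpq⟩ := h0
  have hpq' : ¬ (σ p q < α) := not_lt.2 hpq
  have hpL := hA hp
  have hqR := hB hq
  rw [hlt p hpL q hqR, not_lt] at hpq'
  have hpq2 := (hle p hpL q hqR).1 (hAB p hp q hq)
  have hv : y q - α * x q = y p - α * x p := le_antisymm hpq2 hpq'
  set β : ℝ := y p - α * x p with hβ
  have hAv : ∀ r ∈ A, β ≤ y r - α * x r := by
    intro r hr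
    have := (hle r (hA hr) q hqR).1 (hAB r hr q hq)
    linarith
  have hBv : ∀ r ∈ B, y r - α * x r ≤ β := by
    intro r hr
    have := (hle p hpL r (hB hr)).1 (hAB p hp r hr)
    linarith
  have hgp' := hgp α β p hpL q hqR (by rw [hβ]; ring) (by linarith)
  refine ⟨α, β, p, hpL, q, hqR, by rw [hβ]; ring, by linarith, ?_, ?_, ?_, ?_⟩
  · by_contra hcon
    push Not at hcon
    refine H1 _ (Finset.filter_subset _ _) B hB hcon hB1 ?_
    intro r hr s hs
    rw [Finset.mem_filter] at hr
    rw [hlt r hr.1 s (hB hs)]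
    have := hBv s hs
    linarith [hr.2]
  · refine hA1.trans ?_
    have hsub : A ⊆ insert p (L.filter (fun r => α * x r + β < y r)) := by
      intro r hr
      rw [Finset.mem_insert, Finset.mem_filter]
      rcases eq_or_lt_of_le (hAv r hr) with h | h
      · left
        rcases hgp' r (Finset.mem_union_left _ (hA hr)) (by linarith) with h1 | h1
        · exact h1
        · exfalso
          have h2 := hL r (hA hr)
          have h3 := hR q hqR
          rw [h1] at h2; linarith
      · right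
        exact ⟨hA hr, by linarith⟩
    refine (Finset.sum_le_sum_of_subset hsub).trans ?_
    rw [Finset.sum_insert]
    · omega
    · rw [Finset.mem_filter]; rintro ⟨_, h⟩; rw [hβ] at h; linarith
  · have hdisj : Disjoint B (R.filter (fun r => α * x r + β < y r)) := by
      rw [Finset.disjoint_left]
      intro r hr hr'
      rw [Finset.mem_filter] at hr'
      linarith [hBv r hr, hr'.2]
    have : ∑ r ∈ B, w' r + ∑ r ∈ R.filter (fun r => α * x r + β < y r), w' r ≤ ∑ r ∈ R, w' r := by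
      rw [← Finset.sum_union hdisj]
      exact Finset.sum_le_sum_of_subset (Finset.union_subset hB (Finset.filter_subset _ _))
    omega
  · by_contra hcon
    push Not at hcon
    refine H1 A hA (R.filter (fun r => y r < α * x r + β)) (Finset.filter_subset _ _) hA1 ?_ ?_
    · have hsub : R ⊆ insert q ((R.filter (fun r => α * x r + β < y r)) ∪
          (R.filter (fun r => y r < α * x r + β))) := by
        intro r hr
        rw [Finset.mem_insert, Finset.mem_union, Finset.mem_filter, Finset.mem_filter]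
        rcases lt_trichotomy (y r) (α * x r + β) with h | h | h
        · right; right; exact ⟨hr, h⟩
        · left
          rcases hgp' r (Finset.mem_union_right _ hr) h with h1 | h1
          · exfalso
            have h2 := hL p hpL
            have h3 := hR r hr
            rw [h1] at h3; linarith
          · exact h1
        · right; left; exact ⟨hr, h⟩
      have h1 := Finset.sum_le_sum_of_subset (f := w') hsub
      have hnq : q ∉ (R.filter (fun r => α * x r + β < y r)) ∪
          (R.filter (fun r => y r < α * x r + β)) := by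
        rw [Finset.mem_union, Finset.mem_filter, Finset.mem_filter]
        rintro (⟨_, h⟩ | ⟨_, h⟩) <;> linarith
      have hdj : Disjoint (R.filter (fun r => α * x r + β < y r))
          (R.filter (fun r => y r < α * x r + β)) := by
        rw [Finset.disjoint_left]
        intro r hr hr'
        rw [Finset.mem_filter] at hr hr'
        linarith [hr.2, hr'.2]
      rw [Finset.sum_insert hnq, Finset.sum_union hdj] at h1
      omega
    · intro r hr s hs
      rw [Finset.mem_filter] at hs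
      rw [hlt r (hA hr) s hs.1]
      have := hAv r hr
      linarith [hs.2]

theorem exists_perturb {ι : Type*} (x y : ι → ℝ) (V : Finset ι) (α β : ℝ) (p q : ι)
    (hxy : x p ≠ x q) (hp : y p = α * x p + β) (hq : y q = α * x q + β)
    (hV : ∀ r ∈ V, y r = α * x r + β → r = p ∨ r = q) (sp sq : Bool) :
    ∃ α' β' : ℝ, (∀ r ∈ V, y r ≠ α' * x r + β') ∧
      (∀ r ∈ V, r ≠ p → r ≠ q → (α' * x r + β' < y r ↔ α * x r + β < y r)) ∧
      (α' * x p + β' < y p ↔ sp = true) ∧ (α' * x q + β' < y q ↔ sq = true) := by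
  classical
  set εp : ℝ := if sp then -1 else 1 with hεp
  set εq : ℝ := if sq then -1 else 1 with hεq
  set l : ℝ := (εp - εq) / (x p - x q) with hl
  set μ : ℝ := εp - l * x p with hμ
  have hd : x p - x q ≠ 0 := sub_ne_zero.2 hxy
  have h1 : l * x p + μ = εp := by rw [hμ]; ring
  have h2 : l * x q + μ = εq := by
    have : l * (x p - x q) = εp - εq := by rw [hl]; field_simp
    rw [hμ]; linarith
  have hev : ∀ r ∈ V, ∀ᶠ η in nhdsWithin (0:ℝ) (Set.Ioi 0), (r ≠ p → r ≠ q →
      ((y r ≠ (α + η * l) * x r + (β + η * μ)) ∧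
      ((α + η * l) * x r + (β + η * μ) < y r ↔ α * x r + β < y r))) := by
    intro r hr
    by_cases hrp : r = p
    · exact Filter.Eventually.of_forall (fun η h => absurd hrp h)
    by_cases hrq : r = q
    · exact Filter.Eventually.of_forall (fun η _ h => absurd hrq h)
    have hne : y r ≠ α * x r + β := by
      intro h; rcases hV r hr h with h | h
      · exact hrp h
      · exact hrq h
    have hcont : Filter.Tendsto (fun η : ℝ => (α + η * l) * x r + (β + η * μ))
        (nhdsWithin (0:ℝ) (Set.Ioi 0)) (nhds (α * x r + β)) := by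
      have : Filter.Tendsto (fun η : ℝ => (α + η * l) * x r + (β + η * μ))
        (nhds (0:ℝ)) (nhds ((α + 0 * l) * x r + (β + 0 * μ))) := by
        apply Continuous.tendsto; fun_prop
      simp only [zero_mul, add_zero] at this
      exact this.mono_left nhdsWithin_le_nhds
    rcases lt_or_gt_of_ne hne with h | h
    · filter_upwards [hcont.eventually (lt_mem_nhds h)] with η hη _ _
      exact ⟨ne_of_lt hη, ⟨fun h' => absurd h' (not_lt.2 hη.le), fun h' => absurd h' (not_lt.2 h.le)⟩⟩
    · filter_upwards [hcont.eventually (gt_mem_nhds h)] with η hη _ _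
      exact ⟨ne_of_gt hη, ⟨fun _ => h, fun _ => hη⟩⟩
  have hall : ∀ᶠ η in nhdsWithin (0:ℝ) (Set.Ioi 0), ∀ r ∈ V, (r ≠ p → r ≠ q →
      ((y r ≠ (α + η * l) * x r + (β + η * μ)) ∧
      ((α + η * l) * x r + (β + η * μ) < y r ↔ α * x r + β < y r))) :=
    (Filter.eventually_all_finset V).2 hev
  obtain ⟨η, hη, hη0⟩ := (hall.and self_mem_nhdsWithin).exists
  have hη0 : 0 < η := hη0
  have e1 : (α + η * l) * x p + (β + η * μ) = y p + η * εp := by rw [hp, ← h1]; ring
  have e2 : (α + η * l) * x q + (β + η * μ) = y q + η * εq := by rw [hq, ← h2]; ring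
  have hp1 : εp = 1 ∨ εp = -1 := by rw [hεp]; split_ifs <;> simp
  have hq1 : εq = 1 ∨ εq = -1 := by rw [hεq]; split_ifs <;> simp
  refine ⟨α + η * l, β + η * μ, ?_, ?_, ?_, ?_⟩
  · intro r hr
    by_cases hrp : r = p
    · rw [hrp, e1]; intro h; rcases hp1 with h' | h' <;> rw [h'] at h <;> linarith
    by_cases hrq : r = q
    · rw [hrq, e2]; intro h; rcases hq1 with h' | h' <;> rw [h'] at h <;> linarith
    exact (hη r hr hrp hrq).1
  · intro r hr h3 h4
    exact (hη r hr h3 h4).2
  · rw [e1]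
    cases sp with
    | true => simp only [hεp]; simp; exact hη0
    | false => simp only [hεp]; simp; exact hη0.le
  · rw [e2]
    cases sq with
    | true => simp only [hεq]; simp; exact hη0
    | false => simp only [hεq]; simp; exact hη0.le

end Pool.Agent.LinesCross
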