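import Mathlib
import Pool.Agent.LinesCross.Pivot
import Pool.Agent.LinesCross.Comb

set_option linter.unusedSectionVars false

namespace Pool.Agent.LinesCross

open Finset

section blow

variable {ι : Type*} [DecidableEq ι] (N : ℕ) (A : ι → ι → ℕ)

/-- blow-up: each vertex becomes a clique with `N` vertices, each edge a complete bipartite graph -/
def Bl (c d : ι × Fin N) : ℕ := if c.1 = d.1 then (if c.2 = d.2 then 0 else 1) else A c.1 d.1

theorem Bl_symm (hsym : ∀ c d, A c d = A d c) (c d : ι × Fin N) : Bl N A c d = Bl N A d c := by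
  unfold Bl
  by_cases h : c.1 = d.1
  · rw [if_pos h, if_pos h.symm]; by_cases h2 : c.2 = d.2
    · rw [if_pos h2, if_pos h2.symm]
    · rw [if_neg h2, if_neg (Ne.symm h2)]
  · rw [if_neg h, if_neg (Ne.symm h), hsym]

theorem Bl_self (c : ι × Fin N) : Bl N A c c = 0 := by simp [Bl]

theorem Bl_le (h1 : ∀ c d, A c d ≤ 1) (c d : ι × Fin N) : Bl N A c d ≤ 1 := by
  unfold Bl; split_ifs <;> simp [h1]

/-- number of pairs of copies separated by the cut -/
def Bt (f : ι × Fin N → Bool) (u v : ι) : ℕ :=
  ∑ i : Fin N, ∑ j : Fin N, if f (u, i) = true ∧ f (v, j) = false then 1 else 0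

theorem Cr_Bl (f : ι × Fin N → Bool) (V : Finset ι) (h0 : ∀ c, A c c = 0) :
    Cr (Bl N A) f (V ×ˢ (univ : Finset (Fin N))) (V ×ˢ (univ : Finset (Fin N))) =
      ∑ u ∈ V, ∑ v ∈ V, A u v * Bt N f u v + ∑ u ∈ V, Bt N f u u := by
  unfold Cr
  rw [Finset.sum_product, ← Finset.sum_add_distrib]
  apply Finset.sum_congr rfl
  intro u hu
  simp only [Finset.sum_product]
  rw [Finset.sum_comm]
  have : ∀ v ∈ V, ∑ i : Fin N, ∑ j : Fin N,
      (if f (u, i) = true ∧ f (v, j) = false then Bl N A (u, i) (v, j) else 0) =
      A u v * Bt N f u v + if u = v then Bt N f u v else 0 := by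
    intro v _
    by_cases huv : u = v
    · subst huv
      rw [h0, zero_mul, zero_add, if_pos rfl]
      unfold Bt Bl
      apply Finset.sum_congr rfl; intro i _; apply Finset.sum_congr rfl; intro j _
      by_cases hij : i = j
      · subst hij; simp
      · simp [hij]
    · rw [if_neg huv, add_zero]
      unfold Bt Bl
      rw [Finset.mul_sum]
      apply Finset.sum_congr rfl; intro i _
      rw [Finset.mul_sum]
      apply Finset.sum_congr rfl; intro j _
      simp [huv]
  rw [Finset.sum_congr rfl this, Finset.sum_add_distrib, Finset.sum_ite_eq, if_pos hu]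

theorem Bt_const_left (f : ι × Fin N → Bool) (u : ι) (hu : ∀ i j, f (u, i) = f (u, j)) :
    Bt N f u u = 0 := by
  unfold Bt
  apply Finset.sum_eq_zero; intro i _; apply Finset.sum_eq_zero; intro j _
  rw [if_neg]; rintro ⟨h1, h2⟩; rw [hu i j, h2] at h1; exact absurd h1 (by simp)

theorem Bt_self_le (f : ι × Fin N → Bool) (u : ι) : 4 * Bt N f u u ≤ N * N := by
  unfold Bt
  have h1 : ∑ i : Fin N, ∑ j : Fin N, (if f (u, i) = true ∧ f (u, j) = false then 1 else 0) =
      (univ.filter (fun i : Fin N => f (u, i) = true)).card *
      (univ.filter (fun i : Fin N => f (u, i) = false)).card := by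
    rw [Finset.card_filter, Finset.card_filter, Finset.sum_mul_sum]
    apply Finset.sum_congr rfl; intro i _; apply Finset.sum_congr rfl; intro j _
    by_cases h1 : f (u, i) = true <;> by_cases h2 : f (u, j) = false <;> simp [h1, h2]
  rw [h1]
  have h2 : (univ.filter (fun i : Fin N => f (u, i) = true)).card +
      (univ.filter (fun i : Fin N => f (u, i) = false)).card = N := by
    rw [← Finset.card_union_of_disjoint]
    · have : (univ.filter (fun i : Fin N => f (u, i) = true)) ∪
        (univ.filter (fun i : Fin N => f (u, i) = false)) = univ := by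
        ext i; simp only [Finset.mem_union, Finset.mem_filter, Finset.mem_univ, true_and]
        cases f (u, i) <;> simp
      rw [this]; simp
    · rw [Finset.disjoint_left]; intro i h h'
      rw [Finset.mem_filter] at h h'; rw [h.2] at h'; exact absurd h'.2 (by simp)
  have h3 : (N : ℤ) = ((univ.filter (fun i : Fin N => f (u, i) = true)).card : ℤ) +
      ((univ.filter (fun i : Fin N => f (u, i) = false)).card : ℤ) := by exact_mod_cast h2.symm
  zify
  rw [h3]
  nlinarith [sq_nonneg (((univ.filter (fun i : Fin N => f (u, i) = true)).card : ℤ) -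
      ((univ.filter (fun i : Fin N => f (u, i) = false)).card : ℤ))]

theorem adm_of_pivot (x y : ι → ℝ) (V : Finset ι) (K : ℕ) (h0 : ∀ c, A c c = 0)
    (hK : ∀ α β : ℝ, (∀ r ∈ V, y r ≠ α * x r + β) →
      Cr A (fun r => decide (α * x r + β < y r)) V V ≤ K)
    (α β : ℝ) (p q : ι) (hpV : p ∈ V) (hqV : q ∈ V) (hpq : p ≠ q)
    (hxy : x p ≠ x q) (hp : y p = α * x p + β) (hq : y q = α * x q + β)
    (hV : ∀ r ∈ V, y r = α * x r + β → r = p ∨ r = q)
    (f : ι × Fin N → Bool)
    (hf : ∀ r ∈ V, r ≠ p → r ≠ q → ∀ i, f (r, i) = decide (α * x r + β < y r)) :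
    2 * Cr (Bl N A) f (V ×ˢ (univ : Finset (Fin N))) (V ×ˢ (univ : Finset (Fin N))) ≤
      2 * (N * N * K) + N * N := by
  rw [Cr_Bl N A f V h0]
  -- the self part
  have hself : 2 * ∑ u ∈ V, Bt N f u u ≤ N * N := by
    have h1 : ∑ u ∈ V, Bt N f u u = Bt N f p p + Bt N f q q := by
      rw [← Finset.sum_subset (s₁ := {p, q})]
      · rw [Finset.sum_pair hpq]
      · intro r hr; simp only [Finset.mem_insert, Finset.mem_singleton] at hr
        rcases hr with h | h <;> rw [h] <;> assumption
      · intro r hr hr'
        simp only [Finset.mem_insert, Finset.mem_singleton, not_or] at hr'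
        apply Bt_const_left
        intro i j; rw [hf r hr hr'.1 hr'.2, hf r hr hr'.1 hr'.2]
    rw [h1]
    have := Bt_self_le N f p
    have := Bt_self_le N f q
    omega
  -- the cross part
  have hcross : ∑ u ∈ V, ∑ v ∈ V, A u v * Bt N f u v ≤ N * N * K := by
    set g : Fin N → Fin N → ι → Bool := fun i j r => if r = q then f (q, j) else f (r, i) with hg
    have hcr : ∀ i j, Cr A (g i j) V V ≤ K := by
      intro i j
      obtain ⟨α', β', h1, h2, h3, h4⟩ := exists_perturb x y V α β p q hxy hp hq hV
        (f (p, i)) (f (q, j))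
      refine le_trans (le_of_eq ?_) (hK α' β' h1)
      unfold Cr
      have hgd : ∀ r ∈ V, g i j r = decide (α' * x r + β' < y r) := by
        intro r hr
        rw [hg]; simp only
        by_cases hrq : r = q
        · rw [if_pos hrq, hrq]
          cases hh : f (q, j) with
          | true => rw [hh] at h4; symm; rw [decide_eq_true_iff]; exact h4.2 rfl
          | false => rw [hh] at h4; symm; rw [decide_eq_false_iff_not]; intro h; exact absurd (h4.1 h) (by simp)
        · rw [if_neg hrq]
          by_cases hrp : r = p
          · rw [hrp]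
            cases hh : f (p, i) with
            | true => rw [hh] at h3; symm; rw [decide_eq_true_iff]; exact h3.2 rfl
            | false => rw [hh] at h3; symm; rw [decide_eq_false_iff_not]; intro h; exact absurd (h3.1 h) (by simp)
          · rw [hf r hr hrp hrq, decide_eq_decide]
            exact (h2 r hr hrp hrq).symm
      apply Finset.sum_congr rfl; intro u hu; apply Finset.sum_congr rfl; intro v hv
      rw [hgd u hu, hgd v hv]
    have hsum : ∑ u ∈ V, ∑ v ∈ V, A u v * Bt N f u v = ∑ i : Fin N, ∑ j : Fin N, Cr A (g i j) V V := by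
      have e1 : ∑ i : Fin N, ∑ j : Fin N, Cr A (g i j) V V =
          ∑ u ∈ V, ∑ v ∈ V, ∑ i : Fin N, ∑ j : Fin N,
            (if g i j u = true ∧ g i j v = false then A u v else 0) := by
        unfold Cr
        calc _ = ∑ i : Fin N, ∑ u ∈ V, ∑ j : Fin N, ∑ v ∈ V,
              (if g i j u = true ∧ g i j v = false then A u v else 0) := by
              apply Finset.sum_congr rfl; intro i _; rw [Finset.sum_comm]
          _ = ∑ i : Fin N, ∑ u ∈ V, ∑ v ∈ V, ∑ j : Fin N,
              (if g i j u = true ∧ g i j v = false then A u v else 0) := by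
              apply Finset.sum_congr rfl; intro i _; apply Finset.sum_congr rfl; intro u _
              rw [Finset.sum_comm]
          _ = ∑ u ∈ V, ∑ i : Fin N, ∑ v ∈ V, ∑ j : Fin N,
              (if g i j u = true ∧ g i j v = false then A u v else 0) := by
              rw [Finset.sum_comm]
          _ = _ := by
              apply Finset.sum_congr rfl; intro u _; rw [Finset.sum_comm]
      rw [e1]
      apply Finset.sum_congr rfl; intro u hu; apply Finset.sum_congr rfl; intro v hv
      by_cases huv : u = v
      · subst huv; rw [h0]; simp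
      have e2 : ∀ i j, (if g i j u = true ∧ g i j v = false then A u v else 0) =
          A u v * (if g i j u = true ∧ g i j v = false then 1 else 0) := by
        intro i j; split_ifs <;> simp
      simp only [e2, ← Finset.mul_sum]
      congr 1
      unfold Bt
      -- constancy
      have hc : ∀ r ∈ V, r ≠ p → r ≠ q → ∀ i j, f (r, i) = f (r, j) := by
        intro r hr h1 h2 i j; rw [hf r hr h1 h2, hf r hr h1 h2]
      by_cases huq : u = q
      · subst huq
        have e3 : ∀ i j, g i j u = f (u, j) := by intro i j; rw [hg]; simp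
        have e4 : ∀ i j, g i j v = f (v, i) := by intro i j; rw [hg]; simp [Ne.symm huv]
        simp only [e3, e4]
        rw [Finset.sum_comm]
      · by_cases hvq : v = q
        · subst hvq
          have e3 : ∀ i j, g i j v = f (v, j) := by intro i j; rw [hg]; simp
          have e4 : ∀ i j, g i j u = f (u, i) := by intro i j; rw [hg]; simp [huv]
          simp only [e3, e4]
        · have e3 : ∀ i j, g i j v = f (v, i) := by intro i j; rw [hg]; simp [hvq]
          have e4 : ∀ i j, g i j u = f (u, i) := by intro i j; rw [hg]; simp [huq]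
          simp only [e3, e4]
          by_cases hvp : v = p
          · have hup : u ≠ p := by rw [← hvp]; exact huv
            rw [Finset.sum_comm]
            apply Finset.sum_congr rfl; intro i _; apply Finset.sum_congr rfl; intro j _
            rw [hc u hu hup huq i j]
          · apply Finset.sum_congr rfl; intro i _; apply Finset.sum_congr rfl; intro j _
            rw [hc v hv hvp hvq i j]
    rw [hsum]
    calc ∑ i : Fin N, ∑ j : Fin N, Cr A (g i j) V V ≤ ∑ i : Fin N, ∑ j : Fin N, K :=
          Finset.sum_le_sum (fun i _ => Finset.sum_le_sum (fun j _ => hcr i j))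
      _ = N * N * K := by simp [mul_assoc]
  omega

end blow

end Pool.Agent.LinesCross
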