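import Mathlib
import Pool.Agent.LinesCross.Blow

set_option linter.unusedSectionVars false

namespace Pool.Agent.LinesCross

open Finset

section final

variable {ι : Type*} [DecidableEq ι] (N : ℕ) (A : ι → ι → ℕ)

theorem sum_fiber {m : ℕ} (S : Finset (ι × Fin m)) (T : Finset ι) (P : ι → Prop) [DecidablePred P]
    (hST : ∀ c ∈ S, c.1 ∈ T) :
    ∑ r ∈ T.filter P, (S.filter (fun c => c.1 = r)).card = (S.filter (fun c => P c.1)).card := by
  rw [Finset.card_eq_sum_card_fiberwise (f := Prod.fst) (s := S.filter (fun c => P c.1))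
    (t := T.filter P)]
  · apply Finset.sum_congr rfl
    intro r hr
    rw [Finset.mem_filter] at hr
    congr 1
    ext c
    simp only [Finset.mem_filter]
    constructor
    · rintro ⟨h1, h2⟩; exact ⟨⟨h1, by rw [h2]; exact hr.2⟩, h2⟩
    · rintro ⟨⟨h1, _⟩, h2⟩; exact ⟨h1, h2⟩
  · intro c hc
    rw [Finset.mem_coe, Finset.mem_filter] at hc ⊢
    exact ⟨hST c hc.1, hc.2⟩

theorem peel_exists (x y : ι → ℝ) (V : Finset ι) (K : ℕ) (h0 : ∀ c, A c c = 0)
    (hK : ∀ α β : ℝ, (∀ r ∈ V, y r ≠ α * x r + β) →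
      Cr A (fun r => decide (α * x r + β < y r)) V V ≤ K)
    (hgp : ∀ α β : ℝ, ∀ p ∈ V, ∀ q ∈ V, p ≠ q → y p = α * x p + β → y q = α * x q + β →
        ∀ r ∈ V, y r = α * x r + β → r = p ∨ r = q)
    (L₀ R₀ : Finset ι) (hL₀V : L₀ ⊆ V) (hR₀V : R₀ ⊆ V) (hL : ∀ p ∈ L₀, x p < 0)
    (hR : ∀ p ∈ R₀, 0 < x p) (a b : ℕ) (ha : 1 ≤ a) (hb : 1 ≤ b) (m : ℕ) :
    ∀ (L R : Finset (ι × Fin N)), (∀ c ∈ L, c.1 ∈ L₀) → (∀ c ∈ R, c.1 ∈ R₀) →
    L.card = (m + 1) * a → R.card = (m + 1) * b →
    ∃ fs : List (ι × Fin N → Bool), fs.length = m ∧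
      (∀ f ∈ fs, 2 * Cr (Bl N A) f (V ×ˢ (univ : Finset (Fin N)))
        (V ×ˢ (univ : Finset (Fin N))) ≤ 2 * (N * N * K) + N * N) ∧ Peel a b fs L R := by
  induction m with
  | zero =>
    intro L R _ _ h1 h2
    exact ⟨[], rfl, by simp, by simpa using h1, by simpa using h2⟩
  | succ m ih =>
    intro L R hLm hRm hLc hRc
    have hLs : ∑ r ∈ L₀, (L.filter (fun c => c.1 = r)).card = L.card := by
      have := sum_fiber L L₀ (fun _ => True) hLm
      simpa using this
    have hRs : ∑ r ∈ R₀, (R.filter (fun c => c.1 = r)).card = R.card := by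
      have := sum_fiber R R₀ (fun _ => True) hRm
      simpa using this
    have hLbig : a ≤ L.card := by rw [hLc]; exact Nat.le_mul_of_pos_left a (by omega)
    have hRbig : (m + 1) * b ≤ R.card := by rw [hRc]; exact Nat.mul_le_mul_right b (by omega)
    obtain ⟨α, β, p, hp, q, hq, hpl, hql, h1, h2, h3, h4⟩ := exists_pivot x y
      (fun r => (L.filter (fun c => c.1 = r)).card) (fun r => (R.filter (fun c => c.1 = r)).card)
      L₀ R₀ hL hR (by
        intro α β p hp q hq h1 h2 r hr h3
        refine hgp α β p (hL₀V hp) q (hR₀V hq) ?_ h1 h2 r ?_ h3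
        · rintro rfl; linarith [hL p hp, hR p hq]
        · rw [Finset.mem_union] at hr
          rcases hr with h | h
          · exact hL₀V h
          · exact hR₀V h) a ((m + 1) * b) ha (by rw [hLs]; exact hLbig) (Nat.mul_pos (by omega) hb)
        (by rw [hRs]; exact hRbig)
    rw [sum_fiber L L₀ (fun r => α * x r + β < y r) hLm] at h1 h2
    rw [sum_fiber R R₀ (fun r => α * x r + β < y r) hRm] at h3 h4
    set SL := L.filter (fun c => α * x c.1 + β < y c.1) with hSL
    set SR := R.filter (fun c => α * x c.1 + β < y c.1) with hSR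
    obtain ⟨TL, hTL, hTLc⟩ := Finset.exists_subset_card_eq (s := L.filter (fun c => c.1 = p))
      (n := a - SL.card) (by omega)
    obtain ⟨TR, hTR, hTRc⟩ := Finset.exists_subset_card_eq (s := R.filter (fun c => c.1 = q))
      (n := (m + 1) * b - SR.card) (by omega)
    have hxp := hL p hp
    have hxq := hR q hq
    have hpq : p ≠ q := by rintro rfl; linarith
    set f : ι × Fin N → Bool := fun c => decide (α * x c.1 + β < y c.1 ∨ c ∈ TL ∨ c ∈ TR) with hf
    have hTL1 : ∀ c ∈ TL, c ∈ L ∧ c.1 = p := by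
      intro c hc; have := hTL hc; rw [Finset.mem_filter] at this; exact this
    have hTR1 : ∀ c ∈ TR, c ∈ R ∧ c.1 = q := by
      intro c hc; have := hTR hc; rw [Finset.mem_filter] at this; exact this
    have hLt : L.filter (fun c => f c = true) = SL ∪ TL := by
      ext c
      simp only [hf, hSL, Finset.mem_union, Finset.mem_filter, decide_eq_true_eq]
      constructor
      · rintro ⟨h, h' | h' | h'⟩
        · exact Or.inl ⟨h, h'⟩
        · exact Or.inr h'
        · exfalso
          have := (hTR1 c h').2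
          have h5 := hL _ (hLm c h)
          rw [this] at h5; linarith
      · rintro (⟨h, h'⟩ | h')
        · exact ⟨h, Or.inl h'⟩
        · exact ⟨(hTL1 c h').1, Or.inr (Or.inl h')⟩
    have hRt : R.filter (fun c => f c = true) = SR ∪ TR := by
      ext c
      simp only [hf, hSR, Finset.mem_union, Finset.mem_filter, decide_eq_true_eq]
      constructor
      · rintro ⟨h, h' | h' | h'⟩
        · exact Or.inl ⟨h, h'⟩
        · exfalso
          have := (hTL1 c h').2
          have h5 := hR _ (hRm c h)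
          rw [this] at h5; linarith
        · exact Or.inr h'
      · rintro (⟨h, h'⟩ | h')
        · exact ⟨h, Or.inl h'⟩
        · exact ⟨(hTR1 c h').1, Or.inr (Or.inr h')⟩
    have hLtc : (L.filter (fun c => f c = true)).card = a := by
      rw [hLt, Finset.card_union_of_disjoint, hTLc]
      · omega
      · rw [Finset.disjoint_left]
        intro c hc hc'
        rw [hSL, Finset.mem_filter] at hc
        have := (hTL1 c hc').2
        rw [this, hpl] at hc
        exact absurd hc.2 (lt_irrefl _)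
    have hRtc : (R.filter (fun c => f c = true)).card = (m + 1) * b := by
      rw [hRt, Finset.card_union_of_disjoint, hTRc]
      · omega
      · rw [Finset.disjoint_left]
        intro c hc hc'
        rw [hSR, Finset.mem_filter] at hc
        have := (hTR1 c hc').2
        rw [this, hql] at hc
        exact absurd hc.2 (lt_irrefl _)
    have hLsum : (L.filter (fun c => f c = true)).card + (L.filter (fun c => f c = false)).card =
        L.card := by
      rw [← Finset.card_union_of_disjoint (filter_disj_bool f L), filter_union_bool]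
    have hRsum : (R.filter (fun c => f c = true)).card + (R.filter (fun c => f c = false)).card =
        R.card := by
      rw [← Finset.card_union_of_disjoint (filter_disj_bool f R), filter_union_bool]
    obtain ⟨fs, g1, g2, g3⟩ := ih (L.filter (fun c => f c = false)) (R.filter (fun c => f c = true))
      (fun c hc => hLm c (Finset.mem_filter.1 hc).1) (fun c hc => hRm c (Finset.mem_filter.1 hc).1)
      (by
        have e9 : (m + 1 + 1) * a = (m + 1) * a + a := by ring
        rw [hLtc, hLc, e9] at hLsum; omega) hRtc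
    refine ⟨f :: fs, by simp [g1], ?_, hLtc, ?_, g3⟩
    · intro g hg
      rw [List.mem_cons] at hg
      rcases hg with rfl | hg
      · refine adm_of_pivot N A x y V K h0 hK α β p q (hL₀V hp) (hR₀V hq) hpq (by linarith)
          hpl hql (hgp α β p (hL₀V hp) q (hR₀V hq) hpq hpl hql) _ ?_
        intro r hr h5 h6 i
        rw [hf]
        simp only
        rw [decide_eq_decide]
        constructor
        · rintro (h | h | h)
          · exact h
          · exact absurd (hTL1 _ h).2 h5
          · exact absurd (hTR1 _ h).2 h6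
        · intro h; exact Or.inl h
      · exact g2 g hg
    · have e9 : (m + 1 + 1) * b = (m + 1) * b + b := by ring
      rw [hRtc, hRc, e9] at hRsum; omega

theorem list_sum_le_const {D : Type*} (fs : List D) (g : D → ℕ) (B : ℕ)
    (h : ∀ f ∈ fs, 2 * g f ≤ B) : 2 * (fs.map g).sum ≤ fs.length * B := by
  induction fs with
  | nil => simp
  | cons f fs ih =>
    simp only [List.map_cons, List.sum_cons, List.length_cons]
    have h1 := h f (List.mem_cons_self ..)
    have h2 := ih (fun g hg => h g (List.mem_cons_of_mem _ hg))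
    nlinarith

theorem core_bound (x y : ι → ℝ) (V : Finset ι) (K : ℕ)
    (hsym : ∀ c d, A c d = A d c) (h0 : ∀ c, A c c = 0) (h1 : ∀ c d, A c d ≤ 1)
    (hK : ∀ α β : ℝ, (∀ r ∈ V, y r ≠ α * x r + β) →
      Cr A (fun r => decide (α * x r + β < y r)) V V ≤ K)
    (hgp : ∀ α β : ℝ, ∀ p ∈ V, ∀ q ∈ V, p ≠ q → y p = α * x p + β → y q = α * x q + β →
        ∀ r ∈ V, y r = α * x r + β → r = p ∨ r = q)
    (L₀ R₀ : Finset ι) (hLR : V = L₀ ∪ R₀) (hL : ∀ p ∈ L₀, x p < 0)
    (hR : ∀ p ∈ R₀, 0 < x p) (hK0 : W A L₀ R₀ ≤ K)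
    (a b : ℕ) (ha : 1 ≤ a) (hb : 1 ≤ b) (hLa : L₀.card = a) (hRb : R₀.card = b)
    (m : ℕ) (hm : 1 ≤ m) :
    2 * m ^ 2 * W A V V + 2 * m ^ 2 * (a + b) ≤
      2 * m ^ 3 * K + (m - 1) * m ^ 2 + 2 * (2 * m - 1) * (a ^ 2 + b ^ 2) + 4 * (a * b) := by
  obtain ⟨m', rfl⟩ : ∃ m', m = m' + 1 := ⟨m - 1, by omega⟩
  have hdisj : Disjoint L₀ R₀ := by
    rw [Finset.disjoint_left]; intro c h h'; linarith [hL c h, hR c h']
  obtain ⟨fs, g1, g2, g3⟩ := peel_exists (m' + 1) A x y V K h0 hK hgp L₀ R₀
    (by rw [hLR]; exact Finset.subset_union_left) (by rw [hLR]; exact Finset.subset_union_right)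
    hL hR a b ha hb m' (L₀ ×ˢ (univ : Finset (Fin (m' + 1)))) (R₀ ×ˢ (univ : Finset (Fin (m' + 1))))
    (fun c hc => (Finset.mem_product.1 hc).1) (fun c hc => (Finset.mem_product.1 hc).1)
    (by rw [Finset.card_product, hLa]; simp [mul_comm])
    (by rw [Finset.card_product, hRb]; simp [mul_comm])
  have hd2 : Disjoint (L₀ ×ˢ (univ : Finset (Fin (m' + 1)))) (R₀ ×ˢ (univ : Finset (Fin (m' + 1)))) := by
    rw [Finset.disjoint_left]; intro c h h'
    rw [Finset.mem_product] at h h'
    linarith [hL _ h.1, hR _ h'.1]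
  have hp := peel_bound (Bl (m' + 1) A) (Bl_symm _ A hsym) (Bl_self _ A) (Bl_le _ A h1) a b fs _ _ hd2 g3
  have hV : (L₀ ×ˢ (univ : Finset (Fin (m' + 1)))) ∪ (R₀ ×ˢ (univ : Finset (Fin (m' + 1)))) =
      V ×ˢ (univ : Finset (Fin (m' + 1))) := by
    rw [hLR]; ext c; simp only [Finset.mem_union, Finset.mem_product, Finset.mem_univ, and_true]
  rw [hV, g1] at hp
  have hcr := list_sum_le_const fs (fun f => Cr (Bl (m' + 1) A) f (V ×ˢ (univ : Finset (Fin (m' + 1))))
        (V ×ˢ (univ : Finset (Fin (m' + 1))))) _ g2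
  rw [g1] at hcr
  -- W of blow up between L and R
  have hWLR : W (Bl (m' + 1) A) (L₀ ×ˢ (univ : Finset (Fin (m' + 1))))
      (R₀ ×ˢ (univ : Finset (Fin (m' + 1)))) = (m' + 1) * (m' + 1) * W A L₀ R₀ := by
    unfold W
    rw [Finset.sum_product, Finset.mul_sum]
    apply Finset.sum_congr rfl
    intro u hu
    simp only [Finset.sum_product]
    rw [Finset.sum_comm, Finset.mul_sum]
    apply Finset.sum_congr rfl
    intro v hv
    have huv : u ≠ v := by rintro rfl; linarith [hL u hu, hR u hv]
    simp [Bl, huv, mul_assoc]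
  have hWVV : W (Bl (m' + 1) A) (V ×ˢ (univ : Finset (Fin (m' + 1))))
      (V ×ˢ (univ : Finset (Fin (m' + 1)))) + (m' + 1) * V.card =
      (m' + 1) * (m' + 1) * W A V V + (m' + 1) * (m' + 1) * V.card := by
    unfold W
    have e1 : ∀ u v : ι, ∑ i : Fin (m' + 1), ∑ j : Fin (m' + 1), Bl (m' + 1) A (u, i) (v, j) +
        (if u = v then (m' + 1) else 0) =
        (m' + 1) * (m' + 1) * A u v + (if u = v then (m' + 1) * (m' + 1) else 0) := by
      intro u v
      by_cases huv : u = v
      · subst huv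
        rw [if_pos rfl, if_pos rfl, h0, mul_zero, zero_add]
        have : ∀ i : Fin (m' + 1), ∑ j : Fin (m' + 1), Bl (m' + 1) A (u, i) (u, j) = m' := by
          intro i
          have e2 : ∀ j : Fin (m' + 1), Bl (m' + 1) A (u, i) (u, j) = if i = j then 0 else 1 := by
            intro j; simp [Bl]
          simp only [e2]
          rw [Finset.sum_ite, Finset.sum_const_zero, zero_add, Finset.sum_const, smul_eq_mul, mul_one]
          have : univ.filter (fun j : Fin (m' + 1) => ¬ i = j) = univ.erase i := by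
            ext j; simp [eq_comm]
          rw [this, Finset.card_erase_of_mem (Finset.mem_univ _)]; simp
        simp only [this, Finset.sum_const, Finset.card_univ, Fintype.card_fin, smul_eq_mul]
        ring
      · rw [if_neg huv, if_neg huv]
        simp [Bl, huv, mul_assoc]
    have e2 : ∑ c ∈ V ×ˢ (univ : Finset (Fin (m' + 1))), ∑ d ∈ V ×ˢ (univ : Finset (Fin (m' + 1))),
        Bl (m' + 1) A c d = ∑ u ∈ V, ∑ v ∈ V, ∑ i : Fin (m' + 1), ∑ j : Fin (m' + 1),
          Bl (m' + 1) A (u, i) (v, j) := by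
      rw [Finset.sum_product]
      apply Finset.sum_congr rfl; intro u _
      simp only [Finset.sum_product]
      rw [Finset.sum_comm]
    have e3 : ∑ u ∈ V, ∑ v ∈ V, (if u = v then (m' + 1) else 0) = (m' + 1) * V.card := by
      rw [Finset.sum_congr rfl (fun u hu => by rw [Finset.sum_ite_eq, if_pos hu])]
      simp [mul_comm]
    have e4 : ∑ u ∈ V, ∑ v ∈ V, (if u = v then (m' + 1) * (m' + 1) else 0) =
        (m' + 1) * (m' + 1) * V.card := by
      rw [Finset.sum_congr rfl (fun u hu => by rw [Finset.sum_ite_eq, if_pos hu])]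
      simp [mul_comm]
    rw [e2, ← e3, ← e4, Finset.mul_sum, ← Finset.sum_add_distrib, ← Finset.sum_add_distrib]
    apply Finset.sum_congr rfl; intro u _
    rw [Finset.mul_sum, ← Finset.sum_add_distrib, ← Finset.sum_add_distrib]
    apply Finset.sum_congr rfl; intro v _
    exact e1 u v
  have hVc : V.card = a + b := by
    rw [hLR, Finset.card_union_of_disjoint hdisj, hLa, hRb]
  rw [hVc] at hWVV
  rw [hWLR] at hp
  have hK0' : (m' + 1) * (m' + 1) * W A L₀ R₀ ≤ (m' + 1) * (m' + 1) * K := Nat.mul_le_mul_left _ hK0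
  have e5 : m' + 1 - 1 = m' := by omega
  have e6 : 2 * (m' + 1) - 1 = 2 * m' + 1 := by omega
  rw [e5, e6]
  generalize W (Bl (m' + 1) A) (V ×ˢ (univ : Finset (Fin (m' + 1))))
      (V ×ˢ (univ : Finset (Fin (m' + 1)))) = W1 at *
  generalize (List.map (fun f => Cr (Bl (m' + 1) A) f (V ×ˢ (univ : Finset (Fin (m' + 1))))
        (V ×ˢ (univ : Finset (Fin (m' + 1))))) fs).sum = S1 at *
  generalize W A L₀ R₀ = W2 at *
  generalize W A V V = W3 at *
  zify at *
  nlinarith

end final

end Pool.Agent.LinesCross
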