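import Mathlib
import Pool.Agent.LinesCross.One

namespace Pool.Agent.LinesCross

open Finset

theorem exists_threshold {ι : Type*} [DecidableEq ι] (f : ι → ℝ) (V : Finset ι) :
    (∀ p ∈ V, ∀ q ∈ V, f p = f q → p = q) → ∀ l ≤ V.card,
    ∃ c : ℝ, (∀ p ∈ V, f p ≠ c) ∧ (V.filter (fun p => f p < c)).card = l := by
  induction V using Finset.induction_on_max_value f with
  | empty => intro _ l hl; exact ⟨0, by simp, by have : l = 0 := by simpa using hl
                                                 simp [this]⟩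
  | insert a s has hmax ih =>
    intro hinj l hl
    rw [Finset.card_insert_of_notMem has] at hl
    have hinj' : ∀ p ∈ s, ∀ q ∈ s, f p = f q → p = q := fun p hp q hq =>
      hinj p (Finset.mem_insert_of_mem hp) q (Finset.mem_insert_of_mem hq)
    have hlt : ∀ p ∈ s, f p < f a := by
      intro p hp
      refine lt_of_le_of_ne (hmax p hp) (fun h => ?_)
      have := hinj p (Finset.mem_insert_of_mem hp) a (Finset.mem_insert_self _ _) h
      exact has (this ▸ hp)
    rcases Nat.lt_or_ge s.card l with h | h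
    · refine ⟨f a + 1, ?_, ?_⟩
      · intro p hp
        rw [Finset.mem_insert] at hp
        rcases hp with rfl | hp
        · linarith
        · have := hlt p hp; linarith
      · rw [Finset.filter_true_of_mem, Finset.card_insert_of_notMem has]
        · omega
        · intro p hp
          rw [Finset.mem_insert] at hp
          rcases hp with rfl | hp
          · linarith
          · have := hlt p hp; linarith
    · obtain ⟨c, hc1, hc2⟩ := ih hinj' l h
      rcases lt_or_ge c (f a) with hca | hca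
      · refine ⟨c, ?_, ?_⟩
        · intro p hp
          rw [Finset.mem_insert] at hp
          rcases hp with rfl | hp
          · exact ne_of_gt hca
          · exact hc1 p hp
        · rw [Finset.filter_insert, if_neg (not_lt.2 hca.le), hc2]
      · have hall : ∀ p ∈ s, f p < c := fun p hp => lt_of_lt_of_le (hlt p hp) hca
        have hls : s.card = l := by
          rw [← hc2, Finset.filter_true_of_mem hall]
        obtain ⟨c', h1, h2⟩ : ∃ c' : ℝ, (∀ p ∈ s, f p < c') ∧ c' < f a := by
          rcases s.eq_empty_or_nonempty with rfl | hne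
          · exact ⟨f a - 1, by simp, by linarith⟩
          · obtain ⟨x, hx, hxm⟩ := Finset.exists_max_image s f hne
            refine ⟨(f x + f a) / 2, ?_, ?_⟩
            · intro p hp
              have := hxm p hp; have := hlt x hx; linarith
            · have := hlt x hx; linarith
        refine ⟨c', ?_, ?_⟩
        · intro p hp
          rw [Finset.mem_insert] at hp
          rcases hp with rfl | hp
          · exact ne_of_gt h2
          · exact ne_of_lt (h1 p hp)
        · rw [Finset.filter_insert, if_neg (not_lt.2 h2.le), Finset.filter_true_of_mem h1, hls]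

theorem exists_shear (V : Finset (ℝ × ℝ)) :
    ∃ t : ℝ, ∀ p ∈ V, ∀ q ∈ V, p.1 + t * p.2 = q.1 + t * q.2 → p = q := by
  classical
  obtain ⟨t, ht⟩ := Infinite.exists_notMem_finset
    ((V ×ˢ V).image (fun pq => -(pq.1.1 - pq.2.1) / (pq.1.2 - pq.2.2)))
  refine ⟨t, fun p hp q hq h => ?_⟩
  by_cases h2 : p.2 = q.2
  · rw [h2] at h
    exact Prod.ext (by linarith) h2
  · exfalso
    apply ht
    rw [Finset.mem_image]
    refine ⟨(p, q), Finset.mem_product.2 ⟨hp, hq⟩, ?_⟩
    have : p.2 - q.2 ≠ 0 := sub_ne_zero.2 h2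
    field_simp
    linarith

section plane

variable (V : Finset (ℝ × ℝ)) (E : Finset (Sym2 (ℝ × ℝ)))

open Classical in
/-- adjacency -/
noncomputable def Adj (c d : ℝ × ℝ) : ℕ := if s(c, d) ∈ E then 1 else 0

theorem Adj_symm (c d : ℝ × ℝ) : Adj E c d = Adj E d c := by
  unfold Adj; rw [Sym2.eq_swap]

theorem Adj_self (hE : ∀ e ∈ E, ¬ e.IsDiag) (c : ℝ × ℝ) : Adj E c c = 0 := by
  unfold Adj; rw [if_neg]; intro h; exact hE _ h (by simp)

theorem Adj_le (c d : ℝ × ℝ) : Adj E c d ≤ 1 := by
  unfold Adj; split_ifs <;> simp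

open Classical in
theorem W_Adj (X Y : Finset (ℝ × ℝ)) :
    W (Adj E) X Y = ((X ×ˢ Y).filter (fun p => s(p.1, p.2) ∈ E)).card := by
  unfold W Adj
  rw [Finset.card_filter, Finset.sum_product]

open Classical in
theorem W_le_cross (X Y : Finset (ℝ × ℝ)) (F : ℝ × ℝ → ℝ) (c : ℝ)
    (hX : ∀ p ∈ X, F p < c) (hY : ∀ p ∈ Y, c < F p) :
    W (Adj E) X Y ≤ (E.filter (fun e => ∃ u v, e = s(u, v) ∧ F u < c ∧ c < F v)).card := by
  rw [W_Adj]
  apply Finset.card_le_card_of_injOn (fun p => s(p.1, p.2))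
  · intro p hp
    rw [Finset.mem_coe, Finset.mem_filter, Finset.mem_product] at hp
    rw [Finset.mem_coe, Finset.mem_filter]
    exact ⟨hp.2, p.1, p.2, rfl, hX _ hp.1.1, hY _ hp.1.2⟩
  · intro p hp q hq h
    rw [Finset.mem_coe, Finset.mem_filter, Finset.mem_product] at hp hq
    simp only [Sym2.eq_iff] at h
    rcases h with ⟨h1, h2⟩ | ⟨h1, h2⟩
    · exact Prod.ext h1 h2
    · exfalso
      have g1 := hX _ hp.1.1
      have g2 := hY _ hq.1.2
      rw [h1] at g1
      exact absurd g1 (not_lt.2 g2.le)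

open Classical in
theorem card_le_half (x : ℝ × ℝ → ℝ) (hx : ∀ p ∈ V, ∀ q ∈ V, x p = x q → p = q)
    (hEV : ∀ e ∈ E, ∀ p ∈ e, p ∈ V) (hE : ∀ e ∈ E, ¬ e.IsDiag) :
    2 * E.card ≤ W (Adj E) V V := by
  rw [W_Adj]
  have h1 : E.card ≤ ((V ×ˢ V).filter (fun p => s(p.1, p.2) ∈ E ∧ x p.1 < x p.2)).card := by
    apply Finset.card_le_card_of_surjOn (fun p => s(p.1, p.2))
    intro e he
    rw [Finset.mem_coe] at he
    induction e using Sym2.ind with
    | _ u v =>
      have hu := hEV _ he u (by simp)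
      have hv := hEV _ he v (by simp)
      have huv : u ≠ v := by
        rintro rfl; exact hE _ he (by simp)
      rcases lt_trichotomy (x u) (x v) with h | h | h
      · exact ⟨(u, v), by simp [hu, hv, he, h], rfl⟩
      · exact absurd (hx u hu v hv h) huv
      · refine ⟨(v, u), ?_, Sym2.eq_swap⟩
        simp only [Finset.coe_filter, Finset.mem_product, Set.mem_ofPred_eq]
        exact ⟨⟨hv, hu⟩, by rw [Sym2.eq_swap]; exact he, h⟩
  have h2 : E.card ≤ ((V ×ˢ V).filter (fun p => s(p.1, p.2) ∈ E ∧ x p.2 < x p.1)).card := by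
    apply Finset.card_le_card_of_surjOn (fun p => s(p.1, p.2))
    intro e he
    rw [Finset.mem_coe] at he
    induction e using Sym2.ind with
    | _ u v =>
      have hu := hEV _ he u (by simp)
      have hv := hEV _ he v (by simp)
      have huv : u ≠ v := by
        rintro rfl; exact hE _ he (by simp)
      rcases lt_trichotomy (x v) (x u) with h | h | h
      · exact ⟨(u, v), by simp [hu, hv, he, h], rfl⟩
      · exact absurd (hx u hu v hv h.symm) huv
      · refine ⟨(v, u), ?_, Sym2.eq_swap⟩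
        simp only [Finset.coe_filter, Finset.mem_product, Set.mem_ofPred_eq]
        exact ⟨⟨hv, hu⟩, by rw [Sym2.eq_swap]; exact he, h⟩
  have h3 : ((V ×ˢ V).filter (fun p => s(p.1, p.2) ∈ E ∧ x p.1 < x p.2)).card +
      ((V ×ˢ V).filter (fun p => s(p.1, p.2) ∈ E ∧ x p.2 < x p.1)).card ≤
      ((V ×ˢ V).filter (fun p => s(p.1, p.2) ∈ E)).card := by
    rw [← Finset.card_union_of_disjoint]
    · apply Finset.card_le_card
      intro p hp
      rw [Finset.mem_union, Finset.mem_filter, Finset.mem_filter] at hp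
      rw [Finset.mem_filter]
      rcases hp with hp | hp
      · exact ⟨hp.1, hp.2.1⟩
      · exact ⟨hp.1, hp.2.1⟩
    · rw [Finset.disjoint_left]
      intro p hp hq
      rw [Finset.mem_filter] at hp hq
      exact absurd hp.2.2 (not_lt.2 hq.2.2.le)
  omega

/-- general position -/
def GP : Prop := ∀ p ∈ V, ∀ q ∈ V, ∀ r ∈ V, p ≠ q → p ≠ r → q ≠ r →
  ¬ Collinear ℝ ({p, q, r} : Set (ℝ × ℝ))

theorem collinear_of_line (t c α β : ℝ) (p q r : ℝ × ℝ)
    (hp : p.2 = α * (p.1 + t * p.2 - c) + β) (hq : q.2 = α * (q.1 + t * q.2 - c) + β)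
    (hr : r.2 = α * (r.1 + t * r.2 - c) + β) : Collinear ℝ ({p, q, r} : Set (ℝ × ℝ)) := by
  rw [collinear_iff_of_mem (p₀ := p) (by simp)]
  refine ⟨((1 - t * α, α) : ℝ × ℝ), ?_⟩
  have key : ∀ s : ℝ × ℝ, s.2 = α * (s.1 + t * s.2 - c) + β →
      ∃ l : ℝ, s = l • ((1 - t * α, α) : ℝ × ℝ) +ᵥ p := by
    intro s hs
    refine ⟨(s.1 + t * s.2) - (p.1 + t * p.2), ?_⟩
    have h2 : s.2 - p.2 = α * ((s.1 + t * s.2) - (p.1 + t * p.2)) := by linarith
    ext
    · simp only [vadd_eq_add, Prod.fst_add, Prod.smul_fst, smul_eq_mul]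
      have : s.1 - p.1 = ((s.1 + t * s.2) - (p.1 + t * p.2)) - t * (s.2 - p.2) := by ring
      rw [h2] at this
      linarith
    · simp only [vadd_eq_add, Prod.snd_add, Prod.smul_snd, smul_eq_mul]
      linarith
  intro s hs
  simp only [Set.mem_insert_iff, Set.mem_singleton_iff] at hs
  rcases hs with rfl | rfl | rfl
  · exact key _ hp
  · exact key _ hq
  · exact key _ hr

open Classical in
/-- every line avoiding `V` crosses at most `K` edges of `E` -/
def AllLinesLe (K : ℕ) : Prop := ∀ a b c : ℝ, (a ≠ 0 ∨ b ≠ 0) → (∀ p ∈ V, a * p.1 + b * p.2 ≠ c) →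
  (E.filter (fun e => ∃ u v, e = s(u, v) ∧ a * u.1 + b * u.2 < c ∧ c < a * v.1 + b * v.2)).card ≤ K

theorem hK_of (K : ℕ) (hK : AllLinesLe V E K) (t c : ℝ) (α β : ℝ)
    (h : ∀ r ∈ V, r.2 ≠ α * (r.1 + t * r.2 - c) + β) :
    Cr (Adj E) (fun r => decide (α * (r.1 + t * r.2 - c) + β < r.2)) V V ≤ K := by
  classical
  rw [Cr_eq, W_comm (Adj E) (Adj_symm E)]
  refine le_trans (W_le_cross E _ _ (fun p => (-α) * p.1 + (1 - α * t) * p.2) (β - α * c)
    ?_ ?_) (hK (-α) (1 - α * t) (β - α * c) ?_ ?_)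
  · intro p hp
    rw [Finset.mem_filter] at hp
    have h1 := hp.2
    rw [decide_eq_false_iff_not, not_lt] at h1
    have h2 := lt_of_le_of_ne h1 (h p hp.1)
    show -α * p.1 + (1 - α * t) * p.2 < β - α * c
    linarith
  · intro p hp
    rw [Finset.mem_filter] at hp
    have h1 := hp.2
    rw [decide_eq_true_iff] at h1
    show β - α * c < -α * p.1 + (1 - α * t) * p.2
    linarith
  · by_cases hα : α = 0
    · right; rw [hα]; norm_num
    · left; exact neg_ne_zero.2 hα
  · intro p hp hcon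
    apply h p hp
    linarith

theorem plane_bound (hGP : GP V) (hEV : ∀ e ∈ E, ∀ p ∈ e, p ∈ V) (hE : ∀ e ∈ E, ¬ e.IsDiag)
    (K : ℕ) (hK : AllLinesLe V E K) (a b : ℕ) (ha : 1 ≤ a) (hb : 1 ≤ b) (hab : V.card = a + b)
    (m : ℕ) (hm : 1 ≤ m) :
    2 * m ^ 2 * (2 * E.card) + 2 * m ^ 2 * (a + b) ≤
      2 * m ^ 3 * K + (m - 1) * m ^ 2 + 2 * (2 * m - 1) * (a ^ 2 + b ^ 2) + 4 * (a * b) := by
  classical
  obtain ⟨t, ht⟩ := exists_shear V
  obtain ⟨c, hc1, hc2⟩ := exists_threshold (fun p : ℝ × ℝ => p.1 + t * p.2) V ht a (by omega)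
  have hsplit : V = V.filter (fun p => p.1 + t * p.2 < c) ∪ V.filter (fun p => ¬ p.1 + t * p.2 < c) := by
    rw [Finset.filter_union_filter_not_eq]
  have hdisj : Disjoint (V.filter (fun p => p.1 + t * p.2 < c))
    (V.filter (fun p => ¬ p.1 + t * p.2 < c)) := Finset.disjoint_filter_filter_not _ _ _
  have hcard : (V.filter (fun p => ¬ p.1 + t * p.2 < c)).card = b := by
    have := Finset.card_union_of_disjoint hdisj
    rw [← hsplit, hc2, hab] at this; omega
  have h2 := card_le_half V E (fun p => p.1 + t * p.2) ht hEV hE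
  have := core_bound (Adj E) (fun p : ℝ × ℝ => p.1 + t * p.2 - c) (fun p => p.2) V K
    (Adj_symm E) (Adj_self E hE) (Adj_le E) (fun α β h => hK_of V E K hK t c α β h)
    (by
      intro α β p hp q hq hpq h1 h2 r hr h3
      by_contra hcon
      push Not at hcon
      exact hGP p hp q hq r hr hpq (Ne.symm hcon.1) (Ne.symm hcon.2)
        (collinear_of_line t c α β p q r h1 h2 h3))
    _ _ hsplit
    (by intro p hp; rw [Finset.mem_filter] at hp; linarith [hp.2])
    (by
      intro p hp; rw [Finset.mem_filter, not_lt] at hp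
      have := lt_of_le_of_ne hp.2 (hc1 p hp.1).symm
      linarith)
    (by
      refine le_trans (W_le_cross E _ _ (fun p => 1 * p.1 + t * p.2) c ?_ ?_)
        (hK 1 t c (Or.inl one_ne_zero) ?_)
      · intro p hp; rw [Finset.mem_filter] at hp; simp only [one_mul]; exact hp.2
      · intro p hp; rw [Finset.mem_filter, not_lt] at hp; simp only [one_mul]
        exact lt_of_le_of_ne hp.2 (hc1 p hp.1).symm
      · intro p hp; rw [one_mul]; exact hc1 p hp)
    a b ha hb hc2 hcard m hm
  refine le_trans ?_ this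
  have := Nat.mul_le_mul_left (2 * m ^ 2) h2
  omega

theorem plane_one (hGP : GP V) (hEV : ∀ e ∈ E, ∀ p ∈ e, p ∈ V) (hE : ∀ e ∈ E, ¬ e.IsDiag)
    (k : ℕ) (hk : 1 ≤ k) (hK : AllLinesLe V E (k * (k + 1))) (m : ℕ) (hm : 1 ≤ m)
    (hn1 : 2 * m * k ≤ V.card) (hn2 : V.card ≤ 2 * m * (k + 1)) :
    E.card ≤ V.card * k := by
  classical
  obtain ⟨t, ht⟩ := exists_shear V
  obtain ⟨c, hc1, hc2⟩ := exists_threshold (fun p : ℝ × ℝ => p.1 + t * p.2) V ht (V.card / 2) (by omega)
  have hsplit : V = V.filter (fun p => p.1 + t * p.2 < c) ∪ V.filter (fun p => ¬ p.1 + t * p.2 < c) := by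
    rw [Finset.filter_union_filter_not_eq]
  have hdisj : Disjoint (V.filter (fun p => p.1 + t * p.2 < c))
    (V.filter (fun p => ¬ p.1 + t * p.2 < c)) := Finset.disjoint_filter_filter_not _ _ _
  have hcard : (V.filter (fun p => ¬ p.1 + t * p.2 < c)).card = V.card - V.card / 2 := by
    have := Finset.card_union_of_disjoint hdisj
    rw [← hsplit, hc2] at this; omega
  have h2 := card_le_half V E (fun p => p.1 + t * p.2) ht hEV hE
  have e1 : 2 * m * k = 2 * (m * k) := by ring
  have e2 : 2 * m * (k + 1) = 2 * (m * (k + 1)) := by ring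
  have := one_bound (Adj E) (fun p : ℝ × ℝ => p.1 + t * p.2 - c) (fun p => p.2) V k hk
    (Adj_symm E) (Adj_self E hE) (Adj_le E) (fun α β h => hK_of V E _ hK t c α β h)
    (by
      intro α β p hp q hq hpq h1 h2 r hr h3
      by_contra hcon
      push Not at hcon
      exact hGP p hp q hq r hr hpq (Ne.symm hcon.1) (Ne.symm hcon.2)
        (collinear_of_line t c α β p q r h1 h2 h3))
    _ _ hsplit
    (by intro p hp; rw [Finset.mem_filter] at hp; linarith [hp.2])
    (by
      intro p hp; rw [Finset.mem_filter, not_lt] at hp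
      have := lt_of_le_of_ne hp.2 (hc1 p hp.1).symm
      linarith)
    (by
      refine le_trans (W_le_cross E _ _ (fun p => 1 * p.1 + t * p.2) c ?_ ?_)
        (hK 1 t c (Or.inl one_ne_zero) ?_)
      · intro p hp; rw [Finset.mem_filter] at hp; simp only [one_mul]; exact hp.2
      · intro p hp; rw [Finset.mem_filter, not_lt] at hp; simp only [one_mul]
        exact lt_of_le_of_ne hp.2 (hc1 p hp.1).symm
      · intro p hp; rw [one_mul]; exact hc1 p hp)
    m hm (by rw [hc2]; omega) (by rw [hc2]; omega) (by rw [hcard]; omega) (by rw [hcard]; omega)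
  have h3 : 2 * E.card ≤ 2 * (V.card * k) := by
    calc 2 * E.card ≤ 2 * k * V.card := h2.trans this
      _ = 2 * (V.card * k) := by ring
  omega

end plane

end Pool.Agent.LinesCross
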