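import Mathlib
import Pool.Agent.LinesCross.Plane

set_option linter.unusedSectionVars false

namespace Pool.Agent.LinesCross

open Finset

section gen

variable {ι : Type*} [DecidableEq ι] (A : ι → ι → ℕ)

/-- peeling with group sizes `h` and `h + 1` and general weights -/
theorem peel_gen (x y : ι → ℝ) (V : Finset ι) (h : ℕ) (hh : 1 ≤ h) (C P Q D0 D1 : ℕ)
    (hD0 : P * (h * h + C) ≤ Q * h + D0 + P * h)
    (hD1 : P * ((h + 1) * (h + 1) + C) ≤ Q * (h + 1) + D1 + P * (h + 1))
    (hsym : ∀ c d, A c d = A d c) (h0 : ∀ c, A c c = 0) (h1 : ∀ c d, A c d ≤ 1)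
    (hK : ∀ α β : ℝ, (∀ r ∈ V, y r ≠ α * x r + β) →
      Cr A (fun r => decide (α * x r + β < y r)) V V ≤ C)
    (hgp : ∀ α β : ℝ, ∀ p ∈ V, ∀ q ∈ V, p ≠ q → y p = α * x p + β → y q = α * x q + β →
        ∀ r ∈ V, y r = α * x r + β → r = p ∨ r = q) (m : ℕ) :
    ∀ (L R : Finset ι) (l₀ l₁ r₀ r₁ : ℕ), L ⊆ V → R ⊆ V → (∀ p ∈ L, x p < 0) →
      (∀ p ∈ R, 0 < x p) → l₀ + l₁ = m + 1 → r₀ + r₁ = m + 1 →
      L.card = l₀ * h + l₁ * (h + 1) → R.card = r₀ * h + r₁ * (h + 1) →
      P * (W A L L + W A R R + 2 * C) ≤ Q * (L.card + R.card) + D0 * (l₀ + r₀) + D1 * (l₁ + r₁) := by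
  have hside : ∀ (X : Finset ι) (s : ℕ), X.card = s → W A X X + s ≤ s * s := by
    intro X s hs
    have := W_self_le A h0 h1 X
    rwa [hs] at this
  -- cost of one group
  have hone : ∀ (X : Finset ι) (e0 e1 : ℕ), e0 + e1 = 1 → X.card = e0 * h + e1 * (h + 1) →
      P * (W A X X + C) ≤ Q * X.card + D0 * e0 + D1 * e1 := by
    intro X e0 e1 he hX
    have hs := hside X _ rfl
    have h3 : P * (W A X X) + P * X.card ≤ P * (X.card * X.card) := by
      rw [← Nat.mul_add]; exact Nat.mul_le_mul_left _ hs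
    obtain ⟨rfl, rfl⟩ | ⟨rfl, rfl⟩ : (e0 = 1 ∧ e1 = 0) ∨ (e0 = 0 ∧ e1 = 1) := by omega
    · have : X.card = h := by rw [hX]; ring
      rw [this] at h3 ⊢
      nlinarith
    · have : X.card = h + 1 := by rw [hX]; ring
      rw [this] at h3 ⊢
      nlinarith
  induction m with
  | zero =>
    intro L R l₀ l₁ r₀ r₁ _ _ _ _ hl hr hLc hRc
    have e1 := hone L l₀ l₁ (by omega) hLc
    have e2 := hone R r₀ r₁ (by omega) hRc
    nlinarith
  | succ m ih =>
    intro L R l₀ l₁ r₀ r₁ hLV hRV hL hR hl hr hLc hRc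
    have hsize : ∀ (n s₀ s₁ : ℕ), s₀ + s₁ = m + 1 + 1 → n = s₀ * h + s₁ * (h + 1) →
        ∃ a e₀ e₁ s₀' s₁', e₀ + e₁ = 1 ∧ s₀ = s₀' + e₀ ∧ s₁ = s₁' + e₁ ∧
          a = e₀ * h + e₁ * (h + 1) ∧ 1 ≤ a ∧ n = a + (s₀' * h + s₁' * (h + 1)) := by
      intro n s₀ s₁ hs hn
      rcases Nat.eq_zero_or_pos s₁ with hz | hz
      · refine ⟨h, 1, 0, s₀ - 1, s₁, rfl, by omega, by omega, by ring, hh, ?_⟩
        obtain ⟨t, rfl⟩ : ∃ t, s₀ = t + 1 := ⟨s₀ - 1, by omega⟩
        rw [hn]; simp only [Nat.add_sub_cancel]; ring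
      · refine ⟨h + 1, 0, 1, s₀, s₁ - 1, rfl, by omega, by omega, by ring, by omega, ?_⟩
        obtain ⟨t, rfl⟩ : ∃ t, s₁ = t + 1 := ⟨s₁ - 1, by omega⟩
        rw [hn]; simp only [Nat.add_sub_cancel]; ring
    obtain ⟨a, la0, la1, l₀', l₁', hla, hl0, hl1, ha, ha1, haL⟩ := hsize _ l₀ l₁ hl hLc
    obtain ⟨b, rb0, rb1, r₀', r₁', hrb, hr0, hr1, hb, hb1, hbR⟩ := hsize _ r₀ r₁ hr hRc
    obtain ⟨α, β, p, hp, q, hq, hpl, hql, h1', h2', h3', h4'⟩ := exists_pivot x y
      (fun _ => 1) (fun _ => 1) L R hL hR (by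
        intro α β p hp q hq h1 h2 r hr h3
        refine hgp α β p (hLV hp) q (hRV hq) ?_ h1 h2 r ?_ h3
        · rintro rfl; linarith [hL p hp, hR p hq]
        · rw [Finset.mem_union] at hr
          rcases hr with h | h
          · exact hLV h
          · exact hRV h) a b ha1 (by rw [← Finset.card_eq_sum_ones]; omega) hb1
        (by rw [← Finset.card_eq_sum_ones]; omega)
    rw [← Finset.card_eq_sum_ones] at h1' h2' h3' h4'
    have hxp := hL p hp
    have hxq := hR q hq
    have hpq : p ≠ q := by rintro rfl; linarith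
    obtain ⟨α', β', k1, k2, k3, k4⟩ := exists_perturb x y V α β p q (by linarith) hpl hql
      (hgp α β p (hLV hp) q (hRV hq) hpq hpl hql) true true
    set f : ι → Bool := fun r => decide (α' * x r + β' < y r) with hf
    have hLt : L.filter (fun c => f c = true) = insert p (L.filter (fun r => α * x r + β < y r)) := by
      ext c
      simp only [hf, Finset.mem_insert, Finset.mem_filter, decide_eq_true_eq]
      constructor
      · rintro ⟨h, h'⟩
        by_cases hcp : c = p
        · exact Or.inl hcp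
        · right
          refine ⟨h, (k2 c (hLV h) hcp ?_).1 h'⟩
          rintro rfl; linarith [hL c h]
      · rintro (h | ⟨h, h'⟩)
        · rw [h]; exact ⟨hp, k3.2 rfl⟩
        · refine ⟨h, (k2 c (hLV h) ?_ ?_).2 h'⟩
          · rintro rfl; rw [hpl] at h'; exact lt_irrefl _ h'
          · rintro rfl; linarith [hL c h]
    have hRt : R.filter (fun c => f c = true) = insert q (R.filter (fun r => α * x r + β < y r)) := by
      ext c
      simp only [hf, Finset.mem_insert, Finset.mem_filter, decide_eq_true_eq]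
      constructor
      · rintro ⟨h, h'⟩
        by_cases hcp : c = q
        · exact Or.inl hcp
        · right
          refine ⟨h, (k2 c (hRV h) ?_ hcp).1 h'⟩
          rintro rfl; linarith [hR c h]
      · rintro (h | ⟨h, h'⟩)
        · rw [h]; exact ⟨hq, k4.2 rfl⟩
        · refine ⟨h, (k2 c (hRV h) ?_ ?_).2 h'⟩
          · rintro rfl; linarith [hR c h]
          · rintro rfl; rw [hql] at h'; exact lt_irrefl _ h'
    have hLtc : (L.filter (fun c => f c = true)).card = a := by
      rw [hLt, Finset.card_insert_of_notMem]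
      · omega
      · rw [Finset.mem_filter]; rintro ⟨_, h⟩; rw [hpl] at h; exact lt_irrefl _ h
    have hRtc : (R.filter (fun c => f c = true)).card = b := by
      rw [hRt, Finset.card_insert_of_notMem]
      · omega
      · rw [Finset.mem_filter]; rintro ⟨_, h⟩; rw [hql] at h; exact lt_irrefl _ h
    have hLsum : (L.filter (fun c => f c = true)).card + (L.filter (fun c => f c = false)).card =
        L.card := by
      rw [← Finset.card_union_of_disjoint (filter_disj_bool f L), filter_union_bool]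
    have hRsum : (R.filter (fun c => f c = true)).card + (R.filter (fun c => f c = false)).card =
        R.card := by
      rw [← Finset.card_union_of_disjoint (filter_disj_bool f R), filter_union_bool]
    have hih := ih (L.filter (fun c => f c = false)) (R.filter (fun c => f c = false))
      l₀' l₁' r₀' r₁'
      ((Finset.filter_subset _ _).trans hLV) ((Finset.filter_subset _ _).trans hRV)
      (fun c hc => hL c (Finset.mem_filter.1 hc).1) (fun c hc => hR c (Finset.mem_filter.1 hc).1)
      (by omega) (by omega) (by omega) (by omega)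
    have hLR : Disjoint L R := by
      rw [Finset.disjoint_left]; intro c h h'; linarith [hL c h, hR c h']
    have hcr : W A (L.filter (fun c => f c = true)) (L.filter (fun c => f c = false)) +
        W A (R.filter (fun c => f c = true)) (R.filter (fun c => f c = false)) ≤ C := by
      refine le_trans ?_ (hK α' β' k1)
      rw [← Cr_eq, ← Cr_eq]
      calc Cr A f L L + Cr A f R R ≤ Cr A f (L ∪ R) (L ∪ R) := by
            rw [Cr_union_left A f _ _ _ hLR, Cr_union_right A f _ _ _ hLR,
              Cr_union_right A f _ _ _ hLR]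
            omega
        _ ≤ Cr A f V V := by
            rw [Cr_eq, Cr_eq]
            apply W_mono
            · exact Finset.filter_subset_filter _ (Finset.union_subset hLV hRV)
            · exact Finset.filter_subset_filter _ (Finset.union_subset hLV hRV)
    have eL : W A L L = W A (L.filter (fun c => f c = true)) (L.filter (fun c => f c = true)) +
        2 * W A (L.filter (fun c => f c = true)) (L.filter (fun c => f c = false)) +
        W A (L.filter (fun c => f c = false)) (L.filter (fun c => f c = false)) := by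
      conv_lhs => rw [← filter_union_bool f L]
      rw [W_union_left A _ _ _ (filter_disj_bool f L), W_union_right A _ _ _ (filter_disj_bool f L),
        W_union_right A _ _ _ (filter_disj_bool f L),
        W_comm A hsym (L.filter (fun c => f c = false)) (L.filter (fun c => f c = true))]
      ring
    have eR : W A R R = W A (R.filter (fun c => f c = true)) (R.filter (fun c => f c = true)) +
        2 * W A (R.filter (fun c => f c = true)) (R.filter (fun c => f c = false)) +
        W A (R.filter (fun c => f c = false)) (R.filter (fun c => f c = false)) := by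
      conv_lhs => rw [← filter_union_bool f R]
      rw [W_union_left A _ _ _ (filter_disj_bool f R), W_union_right A _ _ _ (filter_disj_bool f R),
        W_union_right A _ _ _ (filter_disj_bool f R),
        W_comm A hsym (R.filter (fun c => f c = false)) (R.filter (fun c => f c = true))]
      ring
    have s1 := hone _ la0 la1 hla (hLtc.trans ha)
    have s2 := hone _ rb0 rb1 hrb (hRtc.trans hb)
    rw [hLtc] at s1 hLsum
    rw [hRtc] at s2 hRsum
    have hcr' := Nat.mul_le_mul_left (2 * P) hcr
    rw [eL, eR, ← hLsum, ← hRsum, hl0, hl1, hr0, hr1]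
    clear hLsum hRsum h1' h2' h3' h4' hLtc hRtc hLt hRt hsize hone hside ih
    generalize W A (L.filter (fun c => f c = true)) (L.filter (fun c => f c = true)) = w1 at *
    generalize W A (L.filter (fun c => f c = true)) (L.filter (fun c => f c = false)) = w2 at *
    generalize W A (L.filter (fun c => f c = false)) (L.filter (fun c => f c = false)) = w3 at *
    generalize W A (R.filter (fun c => f c = true)) (R.filter (fun c => f c = true)) = w4 at *
    generalize W A (R.filter (fun c => f c = true)) (R.filter (fun c => f c = false)) = w5 at *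
    generalize W A (R.filter (fun c => f c = false)) (R.filter (fun c => f c = false)) = w6 at *
    generalize (L.filter (fun c => f c = false)).card = c1 at *
    generalize (R.filter (fun c => f c = false)).card = c2 at *
    linarith

end gen

section plane2

variable (V : Finset (ℝ × ℝ)) (E : Finset (Sym2 (ℝ × ℝ)))

theorem plane_gen (hGP : GP V) (hEV : ∀ e ∈ E, ∀ p ∈ e, p ∈ V) (hE : ∀ e ∈ E, ¬ e.IsDiag)
    (h : ℕ) (hh : 1 ≤ h) (C P Q D0 D1 : ℕ)
    (hD0 : P * (h * h + C) ≤ Q * h + D0 + P * h)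
    (hD1 : P * ((h + 1) * (h + 1) + C) ≤ Q * (h + 1) + D1 + P * (h + 1))
    (hK : AllLinesLe V E C) (m : ℕ) (hm : 1 ≤ m) (s₀ s₁ : ℕ) (hs : s₀ + s₁ = 2 * m)
    (hV : V.card = s₀ * h + s₁ * (h + 1)) :
    2 * (P * E.card) ≤ Q * V.card + D0 * s₀ + D1 * s₁ := by
  classical
  obtain ⟨m', rfl⟩ : ∃ m', m = m' + 1 := ⟨m - 1, by omega⟩
  -- split of the group numbers
  obtain ⟨l₀, l₁, r₀, r₁, g1, g2, g3, g4⟩ : ∃ l₀ l₁ r₀ r₁ : ℕ, l₀ + l₁ = m' + 1 ∧
      r₀ + r₁ = m' + 1 ∧ l₀ + r₀ = s₀ ∧ l₁ + r₁ = s₁ := by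
    rcases Nat.lt_or_ge s₀ (m' + 1) with h3 | h3
    · exact ⟨s₀, m' + 1 - s₀, 0, m' + 1, by omega, by omega, by omega, by omega⟩
    · exact ⟨m' + 1, 0, s₀ - (m' + 1), s₁, by omega, by omega, by omega, by omega⟩
  obtain ⟨t, ht⟩ := exists_shear V
  have hVs : V.card = (l₀ * h + l₁ * (h + 1)) + (r₀ * h + r₁ * (h + 1)) := by
    rw [hV, ← g3, ← g4]; ring
  obtain ⟨c, hc1, hc2⟩ := exists_threshold (fun p : ℝ × ℝ => p.1 + t * p.2) V ht
    (l₀ * h + l₁ * (h + 1)) (by omega)
  have hsplit : V = V.filter (fun p => p.1 + t * p.2 < c) ∪ V.filter (fun p => ¬ p.1 + t * p.2 < c) := by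
    rw [Finset.filter_union_filter_not_eq]
  have hdisj : Disjoint (V.filter (fun p => p.1 + t * p.2 < c))
    (V.filter (fun p => ¬ p.1 + t * p.2 < c)) := Finset.disjoint_filter_filter_not _ _ _
  have hcard : (V.filter (fun p => ¬ p.1 + t * p.2 < c)).card = r₀ * h + r₁ * (h + 1) := by
    have := Finset.card_union_of_disjoint hdisj
    rw [← hsplit, hc2] at this; omega
  have h2 := card_le_half V E (fun p => p.1 + t * p.2) ht hEV hE
  have hK0 : W (Adj E) (V.filter (fun p => p.1 + t * p.2 < c))
      (V.filter (fun p => ¬ p.1 + t * p.2 < c)) ≤ C := by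
    refine le_trans (W_le_cross E _ _ (fun p => 1 * p.1 + t * p.2) c ?_ ?_)
        (hK 1 t c (Or.inl one_ne_zero) ?_)
    · intro p hp; rw [Finset.mem_filter] at hp; simp only [one_mul]; exact hp.2
    · intro p hp; rw [Finset.mem_filter, not_lt] at hp; simp only [one_mul]
      exact lt_of_le_of_ne hp.2 (hc1 p hp.1).symm
    · intro p hp; rw [one_mul]; exact hc1 p hp
  have := peel_gen (Adj E) (fun p : ℝ × ℝ => p.1 + t * p.2 - c) (fun p => p.2) V h hh C P Q D0 D1
    hD0 hD1 (Adj_symm E) (Adj_self E hE) (Adj_le E) (fun α β h => hK_of V E _ hK t c α β h)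
    (by
      intro α β p hp q hq hpq h1 h2 r hr h3
      by_contra hcon
      push Not at hcon
      exact hGP p hp q hq r hr hpq (Ne.symm hcon.1) (Ne.symm hcon.2)
        (collinear_of_line t c α β p q r h1 h2 h3)) m'
    (V.filter (fun p => p.1 + t * p.2 < c)) (V.filter (fun p => ¬ p.1 + t * p.2 < c))
    l₀ l₁ r₀ r₁ (Finset.filter_subset _ _) (Finset.filter_subset _ _)
    (by intro p hp; rw [Finset.mem_filter] at hp; linarith [hp.2])
    (by
      intro p hp; rw [Finset.mem_filter, not_lt] at hp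
      have := lt_of_le_of_ne hp.2 (hc1 p hp.1).symm
      linarith)
    g1 g2 hc2 hcard
  have hW : W (Adj E) V V = W (Adj E) (V.filter (fun p => p.1 + t * p.2 < c))
      (V.filter (fun p => p.1 + t * p.2 < c)) + W (Adj E) (V.filter (fun p => ¬ p.1 + t * p.2 < c))
      (V.filter (fun p => ¬ p.1 + t * p.2 < c)) + 2 * W (Adj E) (V.filter (fun p => p.1 + t * p.2 < c))
      (V.filter (fun p => ¬ p.1 + t * p.2 < c)) := by
    conv_lhs => rw [hsplit]
    rw [W_union_left _ _ _ _ hdisj, W_union_right _ _ _ _ hdisj, W_union_right _ _ _ _ hdisj,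
      W_comm _ (Adj_symm E) (V.filter (fun p => ¬ p.1 + t * p.2 < c))]
    ring
  have hVc : (V.filter (fun p => p.1 + t * p.2 < c)).card +
      (V.filter (fun p => ¬ p.1 + t * p.2 < c)).card = V.card := by
    rw [← Finset.card_union_of_disjoint hdisj, ← hsplit]
  rw [hVc, g3, g4] at this
  calc 2 * (P * E.card) = P * (2 * E.card) := by ring
    _ ≤ P * W (Adj E) V V := Nat.mul_le_mul_left _ h2
    _ ≤ _ := by
        refine le_trans ?_ this
        apply Nat.mul_le_mul_left
        rw [hW]; omega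

end plane2

end Pool.Agent.LinesCross
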