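import Mathlib
import Pool.Agent.LinesCross.Gen

namespace Pool.Agent.LinesCross

open Finset

/-- steps of `t ↦ tM/n` in a window -/
theorem steps_le (n M : ℕ) (u w : ℕ) :
    ((Finset.Ico u (u + w)).filter (fun t => t * M / n < (t + 1) * M / n)).card + u * M / n ≤
      (u + w) * M / n := by
  induction w with
  | zero => simp
  | succ w ih =>
    have h1 : Finset.Ico u (u + (w + 1)) = insert (u + w) (Finset.Ico u (u + w)) := by
      ext t; simp only [Finset.mem_Ico, Finset.mem_insert]; omega
    rw [h1, Finset.filter_insert]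
    have hmono : (u + w) * M / n ≤ (u + w + 1) * M / n :=
      Nat.div_le_div_right (Nat.mul_le_mul_right _ (by omega))
    have e : u + (w + 1) = u + w + 1 := by ring
    rw [e]
    split_ifs with h
    · rw [Finset.card_insert_of_notMem (by simp)]
      omega
    · omega

theorem steps_eq (n M : ℕ) (hn : 0 < n) (hM : M ≤ n) (j : ℕ) :
    ((Finset.range j).filter (fun t => t * M / n < (t + 1) * M / n)).card = j * M / n := by
  induction j with
  | zero => simp
  | succ j ih =>
    rw [Finset.range_add_one, Finset.filter_insert]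
    have hmono : j * M / n ≤ (j + 1) * M / n :=
      Nat.div_le_div_right (Nat.mul_le_mul_right _ (by omega))
    have hle : (j + 1) * M / n ≤ j * M / n + 1 := by
      calc (j + 1) * M / n ≤ (j * M + n) / n := Nat.div_le_div_right (by
            have : (j + 1) * M = j * M + M := by ring
            omega)
        _ = j * M / n + 1 := Nat.add_div_right _ hn
    split_ifs with h
    · rw [Finset.card_insert_of_notMem (by simp), ih]
      omega
    · rw [ih]; omega

/-- number of chords of length `d` (starting in `T`) with exactly one end in `[p, q)` -/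
theorem xor_count (n d p q : ℕ) (hd : 1 ≤ d) (hdn : d ≤ n) (hq : q ≤ n) (T : ℕ → Prop)
    [DecidablePred T] :
    ((Finset.range n).filter (fun i => T i ∧
      ¬ ((p ≤ i ∧ i < q) ↔ (p ≤ (i + d) % n ∧ (i + d) % n < q)))).card ≤
      ((Finset.Ico (q + n - d) (q + n)).filter (fun t => T (t % n))).card +
      ((Finset.Ico (p + n - d) (p + n)).filter (fun t => T (t % n))).card := by
  refine le_trans (Finset.card_le_card (t :=
    ((Finset.Ico (q + n - d) (q + n)).filter (fun t => T (t % n))).image (fun t => t % n) ∪
    ((Finset.Ico (p + n - d) (p + n)).filter (fun t => T (t % n))).image (fun t => t % n)) ?_)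
    (le_trans (Finset.card_union_le _ _) (Nat.add_le_add Finset.card_image_le Finset.card_image_le))
  intro i hi
  rw [Finset.mem_filter, Finset.mem_range] at hi
  obtain ⟨hin, hT, hx⟩ := hi
  have hn : 0 < n := by omega
  rw [Finset.mem_union, Finset.mem_image, Finset.mem_image]
  obtain ⟨j, hj⟩ : ∃ j, j = (i + d) % n := ⟨_, rfl⟩
  rw [← hj] at hx
  have hjn : j < n := by rw [hj]; exact Nat.mod_lt _ hn
  have hcase : i + d = j ∨ i + d = j + n := by
    rcases Nat.lt_or_ge (i + d) n with h | h
    · left; rw [hj, Nat.mod_eq_of_lt h]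
    · right
      have : (i + d) % n = i + d - n := by
        rw [Nat.mod_eq_sub_mod h, Nat.mod_eq_of_lt (by omega)]
      omega
  by_cases hi1 : p ≤ i ∧ i < q
  · left
    refine ⟨i + n, ?_, by rw [Nat.add_mod_right, Nat.mod_eq_of_lt hin]⟩
    rw [Finset.mem_filter, Finset.mem_Ico, Nat.add_mod_right, Nat.mod_eq_of_lt hin]
    refine ⟨⟨?_, by omega⟩, hT⟩
    by_contra hcon
    apply hx
    constructor
    · intro _; omega
    · intro _; exact hi1
  · right
    have hj1 : p ≤ j ∧ j < q := by
      by_contra hcon
      exact hx ⟨fun h => absurd h hi1, fun h => absurd h hcon⟩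
    have hmod : (j + n - d) % n = i := by
      rcases hcase with h | h
      · have : j + n - d = i + n := by omega
        rw [this, Nat.add_mod_right, Nat.mod_eq_of_lt hin]
      · have : j + n - d = i := by omega
        rw [this, Nat.mod_eq_of_lt hin]
    refine ⟨j + n - d, ?_, hmod⟩
    rw [Finset.mem_filter, Finset.mem_Ico, hmod]
    exact ⟨⟨by omega, by omega⟩, hT⟩

/-- an order-convex subset of `range n` is an interval -/
theorem interval_of (n : ℕ) (P : ℕ → Prop) [DecidablePred P]
    (hP : ∀ i j l, i < j → j < l → P i → P l → P j) :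
    ∃ p q, q ≤ n ∧ ∀ i < n, (P i ↔ p ≤ i ∧ i < q) := by
  rcases ((Finset.range n).filter P).eq_empty_or_nonempty with h | h
  · refine ⟨0, 0, by omega, fun i hi => ⟨fun hPi => ?_, fun h' => by omega⟩⟩
    have : i ∈ (Finset.range n).filter P := Finset.mem_filter.2 ⟨Finset.mem_range.2 hi, hPi⟩
    rw [h] at this; simp at this
  · have hmin := Finset.min'_mem _ h
    have hmax := Finset.max'_mem _ h
    rw [Finset.mem_filter, Finset.mem_range] at hmin hmax
    refine ⟨((Finset.range n).filter P).min' h, ((Finset.range n).filter P).max' h + 1, by omega,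
      fun i hi => ⟨fun hPi => ?_, fun ⟨h1, h2⟩ => ?_⟩⟩
    · have hm : i ∈ (Finset.range n).filter P := Finset.mem_filter.2 ⟨Finset.mem_range.2 hi, hPi⟩
      exact ⟨Finset.min'_le _ _ hm, Nat.lt_succ_of_le (Finset.le_max' _ _ hm)⟩
    · rcases Nat.eq_or_lt_of_le h1 with h3 | h3
      · rw [← h3]; exact hmin.2
      rcases Nat.eq_or_lt_of_le (Nat.lt_succ_iff.1 h2) with h4 | h4
      · rw [h4]; exact hmax.2
      exact hP _ i _ h3 h4 hmin.2 hmax.2

section circ

variable (n k b : ℕ)

/-- index set of the chords: all chords of length at most `k`, and `⌊nb/(k+1)⌋` evenly spread chords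
of length `k+1` -/
def Idx : Finset (ℕ × ℕ) :=
  ((Finset.range n) ×ˢ (Finset.Icc 1 (k + 1))).filter (fun x => x.2 ≤ k ∨
    x.1 * (n * b / (k + 1)) / n < (x.1 + 1) * (n * b / (k + 1)) / n)

theorem card_Idx (hn : 0 < n) (hb : b ≤ k + 1) : (Idx n k b).card = n * k + n * b / (k + 1) := by
  have hM : n * b / (k + 1) ≤ n := by
    calc n * b / (k + 1) ≤ n * (k + 1) / (k + 1) := Nat.div_le_div_right (Nat.mul_le_mul_left _ hb)
      _ = n := Nat.mul_div_cancel _ (by omega)
  have h1 : Idx n k b = ((Finset.range n) ×ˢ (Finset.Icc 1 k)) ∪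
      (((Finset.range n).filter (fun t => t * (n * b / (k + 1)) / n <
        (t + 1) * (n * b / (k + 1)) / n)) ×ˢ {k + 1}) := by
    ext ⟨i, d⟩
    simp only [Idx, Finset.mem_filter, Finset.mem_product, Finset.mem_range, Finset.mem_Icc,
      Finset.mem_union, Finset.mem_singleton]
    constructor
    · rintro ⟨⟨h1, h2, h3⟩, h4⟩
      rcases Nat.lt_or_ge k d with h5 | h5
      · right
        rcases h4 with h4 | h4
        · omega
        · exact ⟨⟨h1, h4⟩, by omega⟩
      · left; exact ⟨h1, h2, h5⟩
    · rintro (⟨h1, h2, h3⟩ | ⟨⟨h1, h2⟩, h3⟩)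
      · exact ⟨⟨h1, h2, by omega⟩, Or.inl h3⟩
      · exact ⟨⟨h1, by omega, by omega⟩, Or.inr h2⟩
  rw [h1, Finset.card_union_of_disjoint, Finset.card_product, Finset.card_product,
    steps_eq n _ hn hM n]
  · simp only [Finset.card_range, Nat.card_Icc, Finset.card_singleton, mul_one]
    rw [Nat.mul_div_cancel_left _ hn]
    congr 1
  · rw [Finset.disjoint_left]
    rintro ⟨i, d⟩ h h'
    simp only [Finset.mem_product, Finset.mem_Icc, Finset.mem_singleton] at h h'
    omega

/-- an interval cuts at most `k(k+1) + 2b` chords -/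
theorem Idx_cut (hn : 2 * k + 3 ≤ n) (p q : ℕ) (hq : q ≤ n) :
    ((Idx n k b).filter (fun x => ¬ ((p ≤ x.1 ∧ x.1 < q) ↔
      (p ≤ (x.1 + x.2) % n ∧ (x.1 + x.2) % n < q)))).card ≤ k ^ 2 + k + 2 * b := by
  classical
  set M := n * b / (k + 1) with hM
  set S : ℕ → Prop := fun t => t * M / n < (t + 1) * M / n with hS
  have hn0 : 0 < n := by omega
  have hperiod : ∀ t, S (t % n) ↔ S t := by
    intro t
    have e1 : ∀ s : ℕ, (s + n * (t / n)) * M / n = s * M / n + (t / n) * M := by
      intro s
      have : (s + n * (t / n)) * M = s * M + n * ((t / n) * M) := by ring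
      rw [this, Nat.add_mul_div_left _ _ hn0]
    have e2 : t = t % n + n * (t / n) := (Nat.mod_add_div t n).symm
    rw [hS]
    simp only
    constructor
    · intro h
      rw [e2, e1, show t % n + n * (t / n) + 1 = (t % n + 1) + n * (t / n) by ring, e1]
      omega
    · intro h
      rw [e2, e1, show t % n + n * (t / n) + 1 = (t % n + 1) + n * (t / n) by ring, e1] at h
      omega
  have hbound : ∀ d ∈ Finset.Icc 1 (k + 1),
      (((Idx n k b).filter (fun x => ¬ ((p ≤ x.1 ∧ x.1 < q) ↔
      (p ≤ (x.1 + x.2) % n ∧ (x.1 + x.2) % n < q)))).filter (fun x => x.2 = d)).card ≤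
      if d ≤ k then 2 * d else 2 * b := by
    intro d hd
    rw [Finset.mem_Icc] at hd
    set T : ℕ → Prop := fun t => d ≤ k ∨ S t with hT
    have h1 := xor_count n d p q hd.1 (by omega) hq T
    have h2 : (((Idx n k b).filter (fun x => ¬ ((p ≤ x.1 ∧ x.1 < q) ↔
      (p ≤ (x.1 + x.2) % n ∧ (x.1 + x.2) % n < q)))).filter (fun x => x.2 = d)).card ≤
      ((Finset.range n).filter (fun i => T i ∧
      ¬ ((p ≤ i ∧ i < q) ↔ (p ≤ (i + d) % n ∧ (i + d) % n < q)))).card := by
      apply Finset.card_le_card_of_injOn (fun x => x.1)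
      · rintro ⟨i, d'⟩ hx
        simp only [Finset.coe_filter, Set.mem_ofPred_eq, Idx, Finset.mem_filter,
          Finset.mem_product, Finset.mem_range, Finset.mem_Icc] at hx
        obtain ⟨⟨⟨⟨g1, g2⟩, g3⟩, g4⟩, g5⟩ := hx
        subst g5
        simp only [Finset.coe_filter, Set.mem_ofPred_eq, Finset.mem_range]
        exact ⟨g1, g3, g4⟩
      · rintro ⟨i, d1⟩ hx ⟨j, d2⟩ hy hxy
        simp only [Finset.coe_filter, Set.mem_ofPred_eq] at hx hy hxy
        rw [Prod.mk.injEq]
        exact ⟨hxy, by rw [hx.2, hy.2]⟩
    refine h2.trans (h1.trans ?_)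
    split_ifs with hdk
    · have c1 : ∀ x, ((Finset.Ico (x + n - d) (x + n)).filter (fun t => T (t % n))).card ≤ d := by
        intro x
        refine (Finset.card_filter_le _ _).trans ?_
        rw [Nat.card_Ico]; omega
      have := c1 p; have := c1 q; omega
    · have hdk' : d = k + 1 := by omega
      subst hdk'
      have c1 : ∀ x, ((Finset.Ico (x + n - (k + 1)) (x + n)).filter (fun t => T (t % n))).card ≤ b := by
        intro x
        have e1 : (Finset.Ico (x + n - (k + 1)) (x + n)).filter (fun t => T (t % n)) =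
            (Finset.Ico (x + n - (k + 1)) (x + n - (k + 1) + (k + 1))).filter
              (fun t => t * M / n < (t + 1) * M / n) := by
          have : x + n - (k + 1) + (k + 1) = x + n := by omega
          rw [this]
          apply Finset.filter_congr
          intro t _
          rw [hT]; simp only
          rw [hperiod]
          constructor
          · rintro (h | h)
            · exact absurd h hdk
            · exact h
          · intro h; exact Or.inr h
        rw [e1]
        have h3 := steps_le n M (x + n - (k + 1)) (k + 1)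
        have h4 : (x + n - (k + 1) + (k + 1)) * M / n ≤ (x + n - (k + 1)) * M / n + b := by
          rw [← Nat.add_mul_div_left _ _ hn0]
          apply Nat.div_le_div_right
          have h5 : (k + 1) * M ≤ n * b := by
            rw [hM]; exact Nat.mul_div_le _ _
          calc (x + n - (k + 1) + (k + 1)) * M = (x + n - (k + 1)) * M + (k + 1) * M := by ring
            _ ≤ _ := Nat.add_le_add_left h5 _
        omega
      have := c1 p; have := c1 q; omega
  rw [Finset.card_eq_sum_card_fiberwise (f := fun x : ℕ × ℕ => x.2) (t := Finset.Icc 1 (k + 1))]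
  · refine (Finset.sum_le_sum hbound).trans ?_
    have e1 : Finset.Icc 1 (k + 1) = insert (k + 1) (Finset.Icc 1 k) := by
      ext t; simp only [Finset.mem_Icc, Finset.mem_insert]; omega
    rw [e1, Finset.sum_insert (by simp), if_neg (by omega)]
    have e2 : ∑ d ∈ Finset.Icc 1 k, (if d ≤ k then 2 * d else 2 * b) = k ^ 2 + k := by
      rw [Finset.sum_congr rfl (fun d hd => if_pos (Finset.mem_Icc.1 hd).2)]
      clear hbound hn hM hS hperiod hn0 e1
      induction k with
      | zero => simp
      | succ k ih =>
        rw [Finset.sum_Icc_succ_top (by omega), ih]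
        ring
    rw [e2]; omega
  · rintro ⟨i, d⟩ hx
    simp only [Finset.coe_filter, Set.mem_ofPred_eq, Idx, Finset.mem_filter,
          Finset.mem_product, Finset.mem_range, Finset.mem_Icc] at hx
    simp only [Finset.coe_Icc, Set.mem_Icc]
    omega

end circ

end Pool.Agent.LinesCross
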